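import Pool.Agent.H577R2.Red

/-!
# Correctness of the reduction to chip-firing reachability
-/

namespace Pool.Agent.NPC.H577R2

open Finset Pool.Agent.H577R2

theorem getD_map_range (f : ℕ → ℤ) {n v : ℕ} (hv : v < n) :
    ((List.range n).map f).getD v 0 = f v := by
  rw [List.getD_eq_getElem _ _ (by simpa using hv)]
  simp

theorem ES'_sink (φ : CNF3) : ∀ a ∈ ES' φ, a.1 ≠ NS φ := by
  have hsf : SkipFree (NS φ) (ES φ) := skipFree_arcs (by unfold qS; omega)
  intro a ha
  unfold ES' subd at ha
  rw [List.mem_flatMap] at ha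
  obtain ⟨i, hi, ha⟩ := ha
  rw [List.mem_range] at hi
  have h1 := hsf.sink _ (getD_mem hi)
  simp only [List.mem_cons, List.not_mem_nil, or_false] at ha
  rcases ha with rfl | rfl
  · exact h1
  · simp only
    omega

theorem KS_ge (φ : CNF3) : nv φ * ((ES φ).length + 1) ^ (NS φ) ≤ KS φ := by
  unfold KS
  have h1 : (ES φ).length + 1 ≤ 2 ^ (ES φ).length := Nat.lt_two_pow_self
  have h2 : nv φ ≤ 2 ^ nv φ := Nat.lt_two_pow_self.le
  calc nv φ * ((ES φ).length + 1) ^ (NS φ) ≤ 2 ^ nv φ * (2 ^ (ES φ).length) ^ (NS φ) :=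
        Nat.mul_le_mul h2 (Nat.pow_le_pow_left h1 _)
    _ = 2 ^ ((ES φ).length * NS φ + nv φ) := by
        rw [← pow_mul, ← pow_add, add_comm]

theorem inst_correct (φ : CNF3) (hφ : Small φ) : SAT3 φ ↔ ¬ SimpleReach (inst φ) := by
  have hsf : SkipFree (NS φ) (ES φ) := skipFree_arcs (by unfold qS; omega)
  have hn : ((List.range (NS φ + 1 + (ES φ).length)).map (xS φ)).length =
      NS φ + 1 + (ES φ).length := by simp
  have hwf : Wf (NS φ + 1 + (ES φ).length) (ES' φ) := Wf.subd hsf.wf
  have hker : Ker0 (NS φ + 1 + (ES φ).length) (ES' φ) (NS φ) := Ker0.subd hsf.wf hsf.ker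
  -- the equivalence for reachability
  have key : Reach (V := Fin (inst φ).2.1.length)
      (fun u v => (inst φ).1.count ((u : ℕ), (v : ℕ)))
      (fun v => (inst φ).2.1.getD v 0) (fun v => (inst φ).2.2.getD v 0) ↔
      ¬ Bad (inst φ).2.1.length (ES' φ) (NS φ) (KS φ) (c0 (nv φ)) := by
    refine reach_iff_bad (n := (inst φ).2.1.length) (E := ES' φ) (s := NS φ) ?_ ?_ (ES'_sink φ)
      ?_ (c0 (nv φ)) ?_ (KS φ) _ _ ?_ ?_
    · change Wf ((List.range (NS φ + 1 + (ES φ).length)).map (xS φ)).length (ES' φ)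
      rw [hn]
      exact hwf
    · change NS φ < ((List.range (NS φ + 1 + (ES φ).length)).map (xS φ)).length
      rw [hn]
      omega
    · change Ker0 ((List.range (NS φ + 1 + (ES φ).length)).map (xS φ)).length (ES' φ) (NS φ)
      rw [hn]
      exact hker
    · intro v _
      unfold c0
      split_ifs <;> positivity
    · intro v
      have hv : (v : ℕ) < NS φ + 1 + (ES φ).length := hn ▸ v.2
      change ((List.range (NS φ + 1 + (ES φ).length)).map (yS φ)).getD v 0 = _
      rw [getD_map_range _ hv]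
      unfold yS c0
      split_ifs <;> push_cast <;> ring
    · intro v
      have hv : (v : ℕ) < NS φ + 1 + (ES φ).length := hn ▸ v.2
      change ((List.range (NS φ + 1 + (ES φ).length)).map (xS φ)).getD v 0 =
        ((List.range (NS φ + 1 + (ES φ).length)).map (yS φ)).getD v 0 + _
      rw [getD_map_range _ hv, getD_map_range _ hv]
      unfold xS yS
      push_cast
      ring
  have hlen : (inst φ).2.1.length = NS φ + 1 + (ES φ).length := hn
  have hbad : Bad (NS φ + 1 + (ES φ).length) (ES' φ) (NS φ) (KS φ) (c0 (nv φ)) ↔ SAT3 φ := by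
    unfold ES'
    rw [bad_subd hsf.wf (by omega) _ _ (by
      intro v hv
      unfold c0
      rw [if_neg (by omega)])]
    rw [sat_iff_sol φ hφ]
    have hq : 5 * nv φ * nv φ + nv φ < qS φ := by
      unfold qS
      omega
    have hk : 1 ≤ nv φ := by
      unfold nv
      omega
    constructor
    · intro h
      refine sol_of_bad (K := KS φ) hq (rS_le φ) (bS_le φ) hk ?_ h
      intro j hj
      refine ⟨j / 2, by omega, ?_, ?_⟩
      · unfold bS
        rw [if_pos (by omega)]
      · unfold rS
        rw [if_pos (by omega), if_pos rfl]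
    · intro h
      exact bad_of_sol hq (rS_le φ) (bS_le φ) hk (KS_ge φ) h
  have hbad' : Bad (inst φ).2.1.length (ES' φ) (NS φ) (KS φ) (c0 (nv φ)) ↔ SAT3 φ := by
    rw [hlen]
    exact hbad
  rw [hbad'] at key
  constructor
  · rintro h ⟨-, -, -, h4⟩
    exact (key.1 h4) h
  · intro h
    by_contra hcon
    apply h
    refine ⟨?_, nodup_subd hsf.wf, ?_, ?_⟩
    · change ((List.range (NS φ + 1 + (ES φ).length)).map (xS φ)).length =
        ((List.range (NS φ + 1 + (ES φ).length)).map (yS φ)).length
      simp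
    · change Wf ((List.range (NS φ + 1 + (ES φ).length)).map (xS φ)).length (ES' φ)
      rw [hn]
      exact hwf
    · exact key.2 hcon

/-- 3SAT with small variables is hard. -/
theorem small_ren3 (φ : CNF3) : Small (ren3 φ) := by
  intro c hc
  have hlen : (ren3 φ).length = φ.length := by simp [ren3]
  have hv : (vars3 φ).length = 3 * φ.length := by
    unfold vars3
    rw [List.length_flatMap]
    simp
    ring
  have hidx : ∀ v ∈ vars3 φ, index (vars3 φ) v < 3 * (ren3 φ).length := by
    intro v hv'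
    have h1 := getElem?_index hv'
    rw [hlen, ← hv]
    by_contra hcon
    rw [List.getElem?_eq_none (not_lt.1 hcon)] at h1
    exact absurd h1 (by simp)
  unfold ren3 at hc
  rw [List.mem_map] at hc
  obtain ⟨d, hd, rfl⟩ := hc
  obtain ⟨h1, h2, h3⟩ := mem_vars3 hd
  exact ⟨hidx _ h1, hidx _ h2, hidx _ h3⟩

theorem hardPr_small : HardPr Small SAT3 :=
  HardPr.trans (Pr := fun _ => True) (P := SAT3) hardI_SAT3.toHardPr ren3_poly
    (fun φ _ => small_ren3 φ) (fun φ _ => ren3_sat φ)

theorem hard_simple : HardI (fun I => ¬ SimpleReach I) :=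
  (HardPr.trans (Pr' := fun _ => True) hardPr_small poly_inst (fun _ _ => trivial)
    inst_correct).toHardI

/-- A simple digraph is a multigraph. -/
def toMulti (I : List (ℕ × ℕ) × List ℤ × List ℤ) : List ((ℕ × ℕ) × ℕ) × List ℤ × List ℤ :=
  (I.1.map (fun a => (a, 1)), I.2)

theorem poly_toMulti : Poly toMulti :=
  Poly.pair (Poly.map (F := fun _ (a : ℕ × ℕ) => (a, 1)) (Poly.fst Poly.id)
    (Poly.pair (Poly.snd Poly.id) (Poly.const 1))) (Poly.snd Poly.id)

theorem toMulti_correct (I : List (ℕ × ℕ) × List ℤ × List ℤ) :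
    MultiReach (toMulti I) ↔ SimpleReach I := by
  unfold MultiReach SimpleReach toMulti
  have h1 : (List.map (fun a => a.1) (List.map (fun a : ℕ × ℕ => (a, 1)) I.1)) = I.1 := by
    rw [List.map_map]
    simp [Function.comp_def]
  have h2 : ∀ w : ℕ × ℕ, (((I.1.map (fun a => (a, 1))).filter (fun a => decide (a.1 = w))).map
      (fun a => a.2)).sum = I.1.count w := by
    intro w
    induction I.1 with
    | nil => simp
    | cons a l ih =>
      rw [List.map_cons, List.filter_cons, List.count_cons]
      by_cases h : a = w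
      · simp [h, ih, add_comm]
      · simp [h, ih]
  simp only [h1, h2]
  simp only [List.forall_mem_map, Nat.zero_lt_one, and_true]

theorem hard_multi : HardI (fun I => ¬ MultiReach I) :=
  hard_simple.trans poly_toMulti (fun I => not_congr (toMulti_correct I).symm)

theorem coNPHard_of {α : Type} [TEnc α] {P : α → Prop} (h : HardI (fun a => ¬ P a)) :
    CoNPHard (lang P) := by
  intro L hL
  obtain ⟨f, hf, hfL⟩ := h _ hL
  refine ⟨fun x => bits (f x), PC.toPolyTime hf, fun x => ?_⟩
  have h1 := hfL x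
  rw [Set.mem_compl_iff, not_iff_not] at h1
  rw [h1]
  constructor
  · intro h
    exact ⟨f x, rfl, h⟩
  · rintro ⟨a, ha, hPa⟩
    rw [bits_injective ha] at hPa
    exact hPa

end Pool.Agent.NPC.H577R2
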