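import Pool.Agent.H577R2.Core
import Pool.Agent.NPC.Sat

/-!
# From 3SAT to the vector-sum problem
-/

namespace Pool.Agent.H577R2

open Finset Pool.Agent.NPC

/-- Instances of 3SAT. -/
abbrev CNF3 : Type := List (Lit ℕ × Lit ℕ × Lit ℕ)

/-- The promise: the variables are small numbers. -/
def Small (φ : CNF3) : Prop := ∀ c ∈ φ, c.1.2 < 3 * φ.length ∧ c.2.1.2 < 3 * φ.length ∧
  c.2.2.2 < 3 * φ.length

/-- The number of a literal. -/
def lit (l : Lit ℕ) : ℕ := 2 * l.2 + (bif l.1 then 1 else 0)

/-- The number of variables (with two slack variables per clause). -/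
def nv (φ : CNF3) : ℕ := 5 * φ.length + 1

/-- The `i`-th clause. -/
def cl (φ : CNF3) (i : ℕ) : Lit ℕ × Lit ℕ × Lit ℕ := φ.getD i ((true, 0), (true, 0), (true, 0))

/-- The vectors. -/
def rS (φ : CNF3) (j e : ℕ) : ℕ :=
  if e < nv φ then (if e = j / 2 then 1 else 0) else
    (if j = lit (cl φ (e - nv φ)).1 then 1 else 0) + ((if j = lit (cl φ (e - nv φ)).2.1 then 1 else 0) +
    ((if j = lit (cl φ (e - nv φ)).2.2 then 1 else 0) +
    ((if j = 2 * (3 * φ.length + 2 * (e - nv φ)) + 1 then 1 else 0) +
    (if j = 2 * (3 * φ.length + 2 * (e - nv φ) + 1) + 1 then 1 else 0))))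

/-- The target. -/
def bS (φ : CNF3) (e : ℕ) : ℕ := if e < nv φ then 1 else 3

theorem rS_le (φ : CNF3) (j e : ℕ) : rS φ j e ≤ 5 := by
  unfold rS
  split_ifs <;> omega

theorem bS_le (φ : CNF3) (e : ℕ) : bS φ e ≤ 5 := by
  unfold bS
  split_ifs <;> omega

theorem sum_pairs (f : ℕ → ℕ) (n : ℕ) :
    ∑ j ∈ range (2 * n), f j = ∑ v ∈ range n, (f (2 * v) + f (2 * v + 1)) := by
  induction n with
  | zero => simp
  | succ n ih =>
    rw [Finset.sum_range_succ, ← ih, show 2 * (n + 1) = 2 * n + 1 + 1 by ring,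
      Finset.sum_range_succ, Finset.sum_range_succ]
    ring

theorem sum_var (φ : CNF3) (c : ℕ → ℕ) {e : ℕ} (he : e < nv φ) :
    ∑ j ∈ range (2 * nv φ), c j * rS φ j e = c (2 * e) + c (2 * e + 1) := by
  rw [sum_pairs, Finset.sum_eq_single e]
  · unfold rS
    have h1 : 2 * e / 2 = e := by omega
    have h2 : (2 * e + 1) / 2 = e := by omega
    simp [he, h1, h2]
  · intro v _ hne
    unfold rS
    have h1 : ¬ (e = 2 * v / 2) := by omega
    have h2 : ¬ (e = (2 * v + 1) / 2) := by omega
    simp only [he, if_true, h1, h2, if_false, mul_zero, add_zero]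
  · intro h
    exact absurd (Finset.mem_range.2 he) h

theorem sum_clause (φ : CNF3) (hφ : Small φ) (c : ℕ → ℕ) {i : ℕ} (hi : i < φ.length) :
    ∑ j ∈ range (2 * nv φ), c j * rS φ j (nv φ + i) =
      c (lit (cl φ i).1) + (c (lit (cl φ i).2.1) + (c (lit (cl φ i).2.2) +
        (c (2 * (3 * φ.length + 2 * i) + 1) + c (2 * (3 * φ.length + 2 * i + 1) + 1)))) := by
  have hmem : cl φ i ∈ φ := by
    unfold cl
    rw [List.getD_eq_getElem _ _ hi]
    exact List.getElem_mem hi
  obtain ⟨h1, h2, h3⟩ := hφ _ hmem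
  have key : ∀ a, a < 2 * nv φ → ∑ j ∈ range (2 * nv φ), c j * (if j = a then 1 else 0) = c a := by
    intro a ha
    simp only [mul_ite, mul_one, mul_zero]
    rw [Finset.sum_ite_eq', if_pos (Finset.mem_range.2 ha)]
  have hlit : ∀ l : Lit ℕ, l.2 < 3 * φ.length → lit l < 2 * nv φ := by
    intro l hl
    unfold lit nv
    cases l.1 <;> simp <;> omega
  have e1 : ¬ (nv φ + i < nv φ) := by omega
  have e2 : nv φ + i - nv φ = i := by omega
  unfold rS
  simp only [e1, if_false, e2, mul_add, Finset.sum_add_distrib]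
  rw [key _ (hlit _ h1), key _ (hlit _ h2), key _ (hlit _ h3), key _ (by unfold nv; omega),
    key _ (by unfold nv; omega)]

/-- 3SAT (with the promise) is equivalent to the vector-sum problem. -/
theorem sat_iff_sol (φ : CNF3) (hφ : Small φ) :
    SAT3 φ ↔ Sol (nv φ + φ.length) (2 * nv φ) (nv φ) (rS φ) (bS φ) := by
  have hmem : ∀ i < φ.length, cl φ i ∈ φ := by
    intro i hi
    unfold cl
    rw [List.getD_eq_getElem _ _ hi]
    exact List.getElem_mem hi
  constructor
  · rintro ⟨τ, hτ⟩
    -- number of true literals in clause `i`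
    obtain ⟨t, ht⟩ : ∃ t : ℕ → ℕ, ∀ i, t i = (if τ (cl φ i).1.2 = (cl φ i).1.1 then 1 else 0) +
        (if τ (cl φ i).2.1.2 = (cl φ i).2.1.1 then 1 else 0) +
        (if τ (cl φ i).2.2.2 = (cl φ i).2.2.1 then 1 else 0) := ⟨_, fun _ => rfl⟩
    have ht1 : ∀ i < φ.length, 1 ≤ t i ∧ t i ≤ 3 := by
      intro i hi
      have := hτ _ (hmem i hi)
      rw [ht]
      rcases this with h | h | h
      · rw [if_pos h]
        split_ifs <;> omega
      · rw [if_pos h]
        split_ifs <;> omega
      · rw [if_pos h]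
        split_ifs <;> omega
    -- the extended assignment
    obtain ⟨σ, hσ⟩ : ∃ σ : ℕ → Bool, ∀ v, σ v = if v < 3 * φ.length then τ v else
        decide (t ((v - 3 * φ.length) / 2) + (v - 3 * φ.length) % 2 ≤ 2) := ⟨_, fun _ => rfl⟩
    obtain ⟨c, hc⟩ : ∃ c : ℕ → ℕ, ∀ j, c j = if σ (j / 2) = decide (j % 2 = 1) then 1 else 0 :=
      ⟨_, fun _ => rfl⟩
    have hpair : ∀ v, c (2 * v) + c (2 * v + 1) = 1 := by
      intro v
      rw [hc, hc]
      have h1 : 2 * v / 2 = v := by omega
      have h2 : (2 * v + 1) / 2 = v := by omega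
      have h3 : ¬ (2 * v % 2 = 1) := by omega
      have h4 : (2 * v + 1) % 2 = 1 := by omega
      rw [h1, h2]
      simp only [h3, h4]
      cases σ v <;> simp
    have hlit : ∀ l : Lit ℕ, l.2 < 3 * φ.length → c (lit l) = if τ l.2 = l.1 then 1 else 0 := by
      rintro ⟨b, v⟩ hl
      simp only at hl
      rw [hc, hσ]
      unfold lit
      cases b
      · have h1 : (2 * v + (bif false then 1 else 0)) / 2 = v := by
          simp
        have h2 : (2 * v + (bif false then 1 else 0)) % 2 = 0 := by
          simp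
        simp only [h1, h2, hl, if_true]
        simp
      · have h1 : (2 * v + (bif true then 1 else 0)) / 2 = v := by
          rw [cond_true]; omega
        have h2 : (2 * v + (bif true then 1 else 0)) % 2 = 1 := by
          rw [cond_true]; omega
        simp only [h1, h2, hl, if_true]
        simp
    refine ⟨c, ?_, ?_⟩
    · rw [sum_pairs, Finset.sum_congr rfl (fun v _ => hpair v)]
      simp
    · intro e he
      by_cases hen : e < nv φ
      · rw [sum_var φ c hen, hpair]
        unfold bS
        rw [if_pos hen]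
      · obtain ⟨i, rfl⟩ := Nat.exists_eq_add_of_le (not_lt.1 hen)
        have hi : i < φ.length := by omega
        obtain ⟨h1, h2, h3⟩ := hφ _ (hmem i hi)
        rw [sum_clause φ hφ c hi, hlit _ h1, hlit _ h2, hlit _ h3]
        unfold bS
        rw [if_neg hen]
        have h4 := ht1 i hi
        have h5 := ht i
        have h6 : c (2 * (3 * φ.length + 2 * i) + 1) = if t i ≤ 2 then 1 else 0 := by
          rw [hc, hσ]
          have e1 : (2 * (3 * φ.length + 2 * i) + 1) / 2 = 3 * φ.length + 2 * i := by omega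
          have e2 : (2 * (3 * φ.length + 2 * i) + 1) % 2 = 1 := by omega
          have e3 : (3 * φ.length + 2 * i - 3 * φ.length) / 2 = i := by omega
          have e4 : (3 * φ.length + 2 * i - 3 * φ.length) % 2 = 0 := by omega
          have e5 : ¬ (3 * φ.length + 2 * i < 3 * φ.length) := by omega
          rw [e1, e2, if_neg e5, e3, e4]
          by_cases h : t i ≤ 2 <;> simp [h]
        have h7 : c (2 * (3 * φ.length + 2 * i + 1) + 1) = if t i ≤ 1 then 1 else 0 := by
          rw [hc, hσ]
          have e1 : (2 * (3 * φ.length + 2 * i + 1) + 1) / 2 = 3 * φ.length + 2 * i + 1 := by omega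
          have e2 : (2 * (3 * φ.length + 2 * i + 1) + 1) % 2 = 1 := by omega
          have e3 : (3 * φ.length + 2 * i + 1 - 3 * φ.length) / 2 = i := by omega
          have e4 : (3 * φ.length + 2 * i + 1 - 3 * φ.length) % 2 = 1 := by omega
          have e5 : ¬ (3 * φ.length + 2 * i + 1 < 3 * φ.length) := by omega
          rw [e1, e2, if_neg e5, e3, e4]
          by_cases h : t i ≤ 1
          · have h' : t i + 1 ≤ 2 := by omega
            simp [h, h']
          · have h' : ¬ (t i + 1 ≤ 2) := by omega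
            simp [h, h']
        rw [h6, h7]
        have h8 : (if τ (cl φ i).1.2 = (cl φ i).1.1 then 1 else 0) +
          ((if τ (cl φ i).2.1.2 = (cl φ i).2.1.1 then 1 else 0) +
          ((if τ (cl φ i).2.2.2 = (cl φ i).2.2.1 then 1 else 0) +
          ((if t i ≤ 2 then 1 else 0) + if t i ≤ 1 then 1 else 0))) =
          t i + ((if t i ≤ 2 then 1 else 0) + if t i ≤ 1 then 1 else 0) := by
          rw [h5]
          ring
        rw [h8]
        split_ifs <;> omega
  · rintro ⟨c, -, hc⟩
    have hpair : ∀ v < nv φ, c (2 * v) + c (2 * v + 1) = 1 := by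
      intro v hv
      rw [← sum_var φ c hv, hc v (by omega)]
      unfold bS
      rw [if_pos hv]
    refine ⟨fun v => decide (c (2 * v + 1) = 1), ?_⟩
    intro d hd
    obtain ⟨i, hi, rfl⟩ : ∃ i, i < φ.length ∧ cl φ i = d := by
      obtain ⟨i, hi, h⟩ := List.getElem_of_mem hd
      refine ⟨i, hi, ?_⟩
      unfold cl
      rw [List.getD_eq_getElem _ _ hi, h]
    obtain ⟨h1, h2, h3⟩ := hφ _ (hmem i hi)
    have h4 := hc (nv φ + i) (by omega)
    rw [sum_clause φ hφ c hi] at h4
    unfold bS at h4
    rw [if_neg (by omega)] at h4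
    have h5 := hpair (3 * φ.length + 2 * i) (by unfold nv; omega)
    have h6 := hpair (3 * φ.length + 2 * i + 1) (by unfold nv; omega)
    have hlit : ∀ l : Lit ℕ, l.2 < 3 * φ.length → c (lit l) ≠ 0 →
        decide (c (2 * l.2 + 1) = 1) = l.1 := by
      rintro ⟨b, v⟩ hl hne
      simp only at hl
      have h7 := hpair v (by unfold nv; omega)
      unfold lit at hne
      cases b
      · simp only [cond_false, add_zero] at hne
        have : c (2 * v + 1) = 0 := by omega
        simp [this]
      · simp only [cond_true] at hne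
        have : c (2 * v + 1) = 1 := by omega
        simp [this]
    by_contra hcon
    push Not at hcon
    obtain ⟨g1, g2, g3⟩ := hcon
    have k1 : c (lit (cl φ i).1) = 0 := by
      by_contra h
      exact g1 (hlit _ h1 h)
    have k2 : c (lit (cl φ i).2.1) = 0 := by
      by_contra h
      exact g2 (hlit _ h2 h)
    have k3 : c (lit (cl φ i).2.2) = 0 := by
      by_contra h
      exact g3 (hlit _ h3 h)
    omega

end Pool.Agent.H577R2
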