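import Pool.Agent.H577R2.ChipList

/-!
# Skip-free digraphs
-/

namespace Pool.Agent.H577R2

open Finset

/-- Pairing the Laplacian with weights. -/
theorem pairing {R : Type*} [CommRing R] {n : ℕ} {E : List (ℕ × ℕ)} (h : Wf n E) (g : ℕ → ℤ)
    (w : ℕ → R) : ∑ v ∈ range n, w v * ((lap E g v : ℤ) : R) =
      (E.map fun a => ((g a.1 : ℤ) : R) * (w a.1 - w a.2)).sum := by
  unfold lap
  induction E with
  | nil => simp
  | cons a E ih =>
    have h1 : Wf n E := fun b hb => h b (List.mem_cons_of_mem _ hb)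
    have h2 := h a (by simp)
    rw [List.map_cons, List.sum_cons, ← ih h1]
    simp only [List.map_cons, List.sum_cons, Int.cast_add, mul_add, Finset.sum_add_distrib]
    congr 1
    simp only [Int.cast_sub, Int.cast_ite, Int.cast_zero, mul_sub, mul_ite, mul_zero,
      Finset.sum_sub_distrib]
    rw [Finset.sum_ite_eq, Finset.sum_ite_eq, if_pos (Finset.mem_range.2 h2.1),
      if_pos (Finset.mem_range.2 h2.2.1)]
    ring

/-- The arcs go at most one step forward, and all forward steps are present. -/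
structure SkipFree (n : ℕ) (E : List (ℕ × ℕ)) : Prop where
  wf : Wf (n + 1) E
  sink : ∀ a ∈ E, a.1 ≠ n
  skip : ∀ a ∈ E, a.1 < a.2 → a.2 = a.1 + 1
  fwd : ∀ i < n, (i, i + 1) ∈ E

theorem cut {n : ℕ} {E : List (ℕ × ℕ)} (h : SkipFree n E) (g : ℕ → ℤ) (i : ℕ) :
    (E.count (i, i + 1) : ℤ) * g i =
      (E.map fun a => if i + 1 ≤ a.1 ∧ a.2 < i + 1 then g a.1 else 0).sum -
        ∑ v ∈ (range (n + 1)).filter (fun v => i + 1 ≤ v), lap E g v := by
  have h1 := pairing (R := ℤ) h.wf g (fun v => if i + 1 ≤ v then 1 else 0)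
  simp only [ite_mul, one_mul, zero_mul, Int.cast_id] at h1
  rw [← Finset.sum_filter] at h1
  rw [h1]
  have h2 := h.skip
  clear h1 h
  induction E with
  | nil => simp
  | cons a E ih =>
    have h3 := ih (fun b hb => h2 b (List.mem_cons_of_mem _ hb))
    have h4 := h2 a (by simp)
    rw [List.map_cons, List.map_cons, List.sum_cons, List.sum_cons, List.count_cons]
    push_cast
    rw [add_mul, h3]
    obtain ⟨a1, a2⟩ := a
    simp only at h4 ⊢
    have h5 : ((a1, a2) == (i, i + 1)) = decide (a1 = i ∧ a2 = i + 1) := by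
      by_cases h : a1 = i ∧ a2 = i + 1
      · simp [h]
      · simp only [h, decide_false, beq_eq_false_iff_ne, ne_eq, Prod.mk.injEq, not_false_eq_true]
    rw [h5]
    by_cases e1 : i + 1 ≤ a1
    · by_cases e2 : a2 < i + 1
      · have e3 : ¬ (a1 = i ∧ a2 = i + 1) := by omega
        have e4 : ¬ (i + 1 ≤ a2) := by omega
        simp [e1, e2, e3, e4]
      · have e3 : ¬ (a1 = i ∧ a2 = i + 1) := by omega
        have e4 : (i + 1 ≤ a2) := by omega
        simp [e1, e2, e3, e4]
    · by_cases e2 : a2 < i + 1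
      · have e3 : ¬ (a1 = i ∧ a2 = i + 1) := by omega
        have e4 : ¬ (i + 1 ≤ a2) := by omega
        simp [e1, e3, e4]
      · have e3 : (a1 = i ∧ a2 = i + 1) := by
          have := h4 (by omega)
          omega
        have e4 : (i + 1 ≤ a2) := by omega
        simp [e1, e3, e4]
        ring

theorem SkipFree.count_pos {n : ℕ} {E : List (ℕ × ℕ)} (h : SkipFree n E) {i : ℕ} (hi : i < n) :
    1 ≤ E.count (i, i + 1) := List.one_le_count_iff.2 (h.fwd i hi)

theorem SkipFree.ker {n : ℕ} {E : List (ℕ × ℕ)} (h : SkipFree n E) : Ker0 (n + 1) E n := by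
  intro g hg hL
  suffices H : ∀ d ≤ n, ∀ v, n - d ≤ v → v < n + 1 → g v = 0 by
    intro v hv
    exact H n le_rfl v (by omega) hv
  intro d
  induction d with
  | zero =>
    intro _ v hv1 hv2
    have : v = n := by omega
    rw [this, hg]
  | succ d ih =>
    intro hd v hv1 hv2
    by_cases hv : n - d ≤ v
    · exact ih (by omega) v hv hv2
    · have hvi : v = n - (d + 1) := by omega
      have h1 := cut h g v
      have h2 : (E.map fun a => if v + 1 ≤ a.1 ∧ a.2 < v + 1 then g a.1 else 0).sum = 0 := by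
        rw [List.sum_eq_zero]
        intro x hx
        rw [List.mem_map] at hx
        obtain ⟨a, ha, rfl⟩ := hx
        split_ifs with hc
        · exact ih (by omega) a.1 (by omega) (h.wf a ha).1
        · rfl
      have h3 : ∑ u ∈ (range (n + 1)).filter (fun u => v + 1 ≤ u), lap E g u = 0 := by
        refine Finset.sum_eq_zero fun u hu => ?_
        rw [Finset.mem_filter, Finset.mem_range] at hu
        exact hL u hu.1
      rw [h2, h3, sub_zero] at h1
      have h4 := h.count_pos (i := v) (by omega)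
      rcases mul_eq_zero.1 h1 with h5 | h5
      · omega
      · exact h5

theorem list_sum_le {α : Type*} (l : List α) (F : α → ℤ) (B : ℤ) (h : ∀ a ∈ l, F a ≤ B) :
    (l.map F).sum ≤ l.length * B := by
  induction l with
  | nil => simp
  | cons a l ih =>
    have h1 := ih (fun a ha => h a (List.mem_cons_of_mem _ ha))
    have h2 := h a (by simp)
    rw [List.map_cons, List.sum_cons, List.length_cons]
    push_cast
    linarith

theorem SkipFree.bound {n : ℕ} {E : List (ℕ × ℕ)} (h : SkipFree n E) (g c : ℕ → ℤ) (k : ℕ)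
    (hg : g n = 0) (hc : ∀ v, 0 ≤ c v) (hck : ∑ v ∈ range (n + 1), c v ≤ k)
    (hL : ∀ v, 1 ≤ v → v < n + 1 → lap E g v = - c v) :
    ∀ v, v < n + 1 → 0 ≤ g v ∧ g v ≤ k * (E.length + 1) ^ n := by
  suffices H : ∀ d ≤ n, ∀ v, n - d ≤ v → v < n + 1 → 0 ≤ g v ∧ g v ≤ k * (E.length + 1) ^ d by
    intro v hv
    exact H n le_rfl v (by omega) hv
  intro d
  induction d with
  | zero =>
    intro _ v hv1 hv2
    have : v = n := by omega
    rw [this, hg]
    simp
  | succ d ih =>
    intro hd v hv1 hv2
    have hpow : (k : ℤ) * (E.length + 1) ^ d ≤ k * (E.length + 1) ^ (d + 1) := by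
      have : ((E.length : ℤ) + 1) ^ d ≤ (E.length + 1) ^ (d + 1) :=
        pow_le_pow_right₀ (by omega) (by omega)
      exact mul_le_mul_of_nonneg_left this (by positivity)
    by_cases hv : n - d ≤ v
    · obtain ⟨h1, h2⟩ := ih (by omega) v hv hv2
      exact ⟨h1, h2.trans hpow⟩
    · have hvi : v = n - (d + 1) := by omega
      have h1 := cut h g v
      have hmem : ∀ a ∈ E, 0 ≤ (if v + 1 ≤ a.1 ∧ a.2 < v + 1 then g a.1 else 0) ∧
          (if v + 1 ≤ a.1 ∧ a.2 < v + 1 then g a.1 else 0) ≤ (k : ℤ) * (E.length + 1) ^ d := by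
        intro a ha
        split_ifs with hcond
        · exact ih (by omega) a.1 (by omega) (h.wf a ha).1
        · exact ⟨le_rfl, by positivity⟩
      have h2 : 0 ≤ (E.map fun a => if v + 1 ≤ a.1 ∧ a.2 < v + 1 then g a.1 else 0).sum := by
        refine List.sum_nonneg ?_
        intro x hx
        rw [List.mem_map] at hx
        obtain ⟨a, ha, rfl⟩ := hx
        exact (hmem a ha).1
      have h2' := list_sum_le E (fun a => if v + 1 ≤ a.1 ∧ a.2 < v + 1 then g a.1 else 0)
        ((k : ℤ) * (E.length + 1) ^ d) (fun a ha => (hmem a ha).2)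
      have h3 : ∑ u ∈ (range (n + 1)).filter (fun u => v + 1 ≤ u), lap E g u =
          - ∑ u ∈ (range (n + 1)).filter (fun u => v + 1 ≤ u), c u := by
        rw [← Finset.sum_neg_distrib]
        refine Finset.sum_congr rfl fun u hu => ?_
        rw [Finset.mem_filter, Finset.mem_range] at hu
        exact hL u (by omega) hu.1
      have h4 : ∑ u ∈ (range (n + 1)).filter (fun u => v + 1 ≤ u), c u ≤ k :=
        (Finset.sum_le_sum_of_subset_of_nonneg (Finset.filter_subset _ _)
          (fun _ _ _ => hc _)).trans hck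
      have h5 : 0 ≤ ∑ u ∈ (range (n + 1)).filter (fun u => v + 1 ≤ u), c u :=
        Finset.sum_nonneg fun _ _ => hc _
      have h6 := h.count_pos (i := v) (by omega)
      have h6' : (1 : ℤ) ≤ E.count (v, v + 1) := by exact_mod_cast h6
      have h7 : 0 ≤ g v := by
        by_contra hneg
        push Not at hneg
        nlinarith
      refine ⟨h7, ?_⟩
      have h8 : g v ≤ (E.count (v, v + 1) : ℤ) * g v := by nlinarith
      have h9 : (k : ℤ) ≤ k * (E.length + 1) ^ d := by
        have : (1 : ℤ) ≤ (E.length + 1) ^ d := one_le_pow₀ (by omega)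
        nlinarith
      rw [pow_succ]
      nlinarith

end Pool.Agent.H577R2
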