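import Pool.Agent.NPC.Defs

/-!
# Chip-firing reachability on finite digraphs: definitions
-/

namespace Pool.Agent.H577R2

open Pool.Agent.NPC

/-- Firing the vertex `v` of a finite digraph with arc multiplicities `m` on the chip-distribution
`x`: `v` sends one chip along each arc leaving it. -/
def fire {V : Type} [Fintype V] [DecidableEq V] (m : V → V → ℕ) (x : V → ℤ) (v : V) : V → ℤ :=
  fun w => x w + m v w - if w = v then ∑ u, (m v u : ℤ) else 0

/-- One step of a legal game: the firing of a vertex `v` which still has a nonnegative number of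
chips afterwards. -/
def Step {V : Type} [Fintype V] [DecidableEq V] (m : V → V → ℕ) (x y : V → ℤ) : Prop :=
  ∃ v, 0 ≤ fire m x v v ∧ y = fire m x v

/-- Some legal game starts at `x` and ends at `y`. -/
def Reach {V : Type} [Fintype V] [DecidableEq V] (m : V → V → ℕ) (x y : V → ℤ) : Prop :=
  Relation.ReflTransGen (Step m) x y

/-- Chip-firing reachability for simple digraphs.  An instance consists of the list of arcs and of
the lists of values of the chip-distributions `x` and `y`; the vertices are the numbers below the
common length of these two lists.  There are no repeated arcs and no loops. -/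
def SimpleReach (I : List (ℕ × ℕ) × List ℤ × List ℤ) : Prop :=
  I.2.1.length = I.2.2.length ∧ I.1.Nodup ∧
    (∀ a ∈ I.1, a.1 < I.2.1.length ∧ a.2 < I.2.1.length ∧ a.1 ≠ a.2) ∧
    Reach (V := Fin I.2.1.length) (fun u v => I.1.count ((u : ℕ), (v : ℕ)))
      (fun v => I.2.1.getD v 0) (fun v => I.2.2.getD v 0)

/-- Chip-firing reachability for multigraphs.  The same as `SimpleReach`, but every arc in the list
comes with a positive multiplicity. -/
def MultiReach (I : List ((ℕ × ℕ) × ℕ) × List ℤ × List ℤ) : Prop :=
  I.2.1.length = I.2.2.length ∧ (I.1.map (fun a => a.1)).Nodup ∧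
    (∀ a ∈ I.1, a.1.1 < I.2.1.length ∧ a.1.2 < I.2.1.length ∧ a.1.1 ≠ a.1.2 ∧ 0 < a.2) ∧
    Reach (V := Fin I.2.1.length)
      (fun u v => ((I.1.filter (fun a => decide (a.1 = ((u : ℕ), (v : ℕ))))).map
        (fun a => a.2)).sum)
      (fun v => I.2.1.getD v 0) (fun v => I.2.2.getD v 0)

/-- `co-NP`-hardness of a language: every language whose complement is in `NP` reduces to it by a
polynomial-time many-one reduction. -/
def CoNPHard (L : Set (List Bool)) : Prop := ∀ L' : Set (List Bool), InNP L'ᶜ → Reduces L' L

end Pool.Agent.H577R2
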