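import Mathlib
import Pool.Agent.H577R2.Defs

/-!
# Chip-firing on finite digraphs: legal games and firing scripts
-/

namespace Pool.Agent.H577R2

open Finset

section

set_option linter.unusedSectionVars false

variable {V : Type} [Fintype V] [DecidableEq V] (m : V → V → ℕ)

/-- The out-degree, as an integer. -/
def deg (v : V) : ℤ := ∑ u, (m v u : ℤ)

/-- The Laplacian. -/
def Lap (g : V → ℤ) (v : V) : ℤ := deg m v * g v - ∑ u, (m u v : ℤ) * g u

theorem deg_nonneg (v : V) : 0 ≤ deg m v := Finset.sum_nonneg fun _ _ => by positivity

theorem Lap_add (g h : V → ℤ) (v : V) : Lap m (fun u => g u + h u) v = Lap m g v + Lap m h v := by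
  unfold Lap
  simp only [mul_add, Finset.sum_add_distrib]
  ring

theorem Lap_sub (g h : V → ℤ) (v : V) : Lap m (fun u => g u - h u) v = Lap m g v - Lap m h v := by
  unfold Lap
  simp only [mul_sub, Finset.sum_sub_distrib]
  ring

theorem Lap_single (v w : V) : Lap m (fun u => if u = v then 1 else 0) w =
    (if w = v then deg m v else 0) - m v w := by
  unfold Lap
  simp only [mul_ite, mul_one, mul_zero, Finset.sum_ite_eq', Finset.mem_univ, if_true]
  split_ifs with h
  · subst h; rfl
  · rfl

theorem fire_eq (x : V → ℤ) (v w : V) :
    fire m x v w = x w - Lap m (fun u => if u = v then 1 else 0) w := by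
  rw [Lap_single]
  unfold fire
  change x w + (m v w : ℤ) - (if w = v then deg m v else 0) = _
  ring

/-- Every legal game has a firing script, along which no intermediate script is stuck. -/
theorem exists_script (hl : ∀ v, m v v = 0) {x y : V → ℤ} (h : Reach m x y) :
    ∃ f : V → ℕ, (∀ v, y v = x v - Lap m (fun u => (f u : ℤ)) v) ∧
      ∀ f' : V → ℕ, (∀ v, f' v ≤ f v) → (∃ v, f' v ≠ f v) →
        ∃ v, f' v < f v ∧ deg m v ≤ x v - Lap m (fun u => (f' u : ℤ)) v := by
  induction h using Relation.ReflTransGen.head_induction_on with
  | refl =>
    refine ⟨fun _ => 0, fun v => by simp [Lap], ?_⟩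
    intro f' h1 h2
    obtain ⟨v, hv⟩ := h2
    have := h1 v
    simp only at this hv
    omega
  | @head x x1 h1 _ ih =>
    obtain ⟨v, hv, rfl⟩ := h1
    obtain ⟨f, hf, hstuck⟩ := ih
    refine ⟨fun u => f u + if u = v then 1 else 0, ?_, ?_⟩
    · intro w
      rw [hf w, fire_eq]
      have : (fun u => (((f u + if u = v then 1 else 0 : ℕ)) : ℤ)) =
          fun u => (f u : ℤ) + (if u = v then (1 : ℤ) else 0) := by
        funext u
        push_cast
        rfl
      rw [this, Lap_add]
      ring
    · intro f' h1 h2
      have hv' : deg m v ≤ x v := by
        unfold fire at hv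
        rw [hl v] at hv
        simp only [if_true] at hv
        unfold deg
        push_cast at hv
        linarith
      by_cases hz : f' v = 0
      · refine ⟨v, by simp [hz], ?_⟩
        have : Lap m (fun u => (f' u : ℤ)) v ≤ 0 := by
          unfold Lap
          have : 0 ≤ ∑ u, (m u v : ℤ) * (f' u : ℤ) := Finset.sum_nonneg fun _ _ => by positivity
          simp only [hz]
          push_cast
          linarith
        linarith
      · obtain ⟨w, hw⟩ := h2
        obtain ⟨u, hu1, hu2⟩ := hstuck (fun u => f' u - if u = v then 1 else 0) (by
          intro u
          have := h1 u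
          simp only at this
          split_ifs at this with h
          · simp only [h, if_true]; subst h; omega
          · simp only [h, if_false]; omega) ⟨w, by
            simp only at hw
            by_cases h : w = v
            · subst h
              simp only [if_true] at hw ⊢
              omega
            · simp only [h, if_false] at hw ⊢
              omega⟩
        refine ⟨u, ?_, ?_⟩
        · by_cases h : u = v
          · subst h
            simp only [if_true] at hu1 ⊢
            omega
          · simp only [h, if_false] at hu1 ⊢
            omega
        · rw [fire_eq] at hu2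
          have : (fun u => (f' u : ℤ)) = fun u => ((f' u - if u = v then 1 else 0 : ℕ) : ℤ) +
              (if u = v then (1 : ℤ) else 0) := by
            funext u
            by_cases h : u = v
            · subst h
              simp only [if_true]
              omega
            · simp [h]
          rw [this, Lap_add]
          linarith

/-- Conversely, a script without stuck intermediate scripts is realised by a legal game. -/
theorem reach_of_script (hl : ∀ v, m v v = 0) {x : V → ℤ} (f : V → ℕ)
    (h : ∀ f' : V → ℕ, (∀ v, f' v ≤ f v) → (∃ v, f' v ≠ f v) →
        ∃ v, f' v < f v ∧ deg m v ≤ x v - Lap m (fun u => (f' u : ℤ)) v) :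
    Reach m x (fun v => x v - Lap m (fun u => (f u : ℤ)) v) := by
  suffices H : ∀ (n : ℕ) (f' : V → ℕ), (∀ v, f' v ≤ f v) → ∑ v, (f v - f' v) = n →
      Reach m (fun v => x v - Lap m (fun u => (f' u : ℤ)) v)
        (fun v => x v - Lap m (fun u => (f u : ℤ)) v) by
    have := H _ (fun _ => 0) (fun v => Nat.zero_le _) rfl
    simpa [Lap] using this
  intro n
  induction n with
  | zero =>
    intro f' h1 h2
    have : f' = f := by
      funext v
      have := (Finset.sum_eq_zero_iff.1 h2) v (Finset.mem_univ v)
      have := h1 v
      omega
    rw [this]
    exact Relation.ReflTransGen.refl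
  | succ n ih =>
    intro f' h1 h2
    have hne : ∃ v, f' v ≠ f v := by
      by_contra hcon
      push Not at hcon
      have : ∑ v, (f v - f' v) = 0 := Finset.sum_eq_zero fun v _ => by rw [hcon v]; simp
      omega
    obtain ⟨v, hv1, hv2⟩ := h f' h1 hne
    have key : ∀ w, fire m (fun v => x v - Lap m (fun u => (f' u : ℤ)) v) v w =
        x w - Lap m (fun u => ((f' u + if u = v then 1 else 0 : ℕ) : ℤ)) w := by
      intro w
      rw [fire_eq]
      have : (fun u => (((f' u + if u = v then 1 else 0 : ℕ)) : ℤ)) =
          fun u => (f' u : ℤ) + (if u = v then (1 : ℤ) else 0) := by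
        funext u
        push_cast
        rfl
      rw [this, Lap_add]
      ring
    refine Relation.ReflTransGen.head (b := fun w =>
      x w - Lap m (fun u => ((f' u + if u = v then 1 else 0 : ℕ) : ℤ)) w) ⟨v, ?_, ?_⟩ ?_
    · unfold fire
      rw [hl v]
      simp only [if_true]
      unfold deg at hv2
      push_cast
      linarith
    · funext w
      exact (key w).symm
    · refine ih (fun u => f' u + if u = v then 1 else 0) ?_ ?_
      · intro w
        have := h1 w
        by_cases hw : w = v
        · subst hw
          simp only [if_true]
          omega
        · simp only [hw, if_false]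
          omega
      · have e : ∑ w, (f w - f' w) = ∑ w, (f w - (f' w + if w = v then 1 else 0)) +
            ∑ w, (if w = v then 1 else 0) := by
          rw [← Finset.sum_add_distrib]
          refine Finset.sum_congr rfl fun w _ => ?_
          have := h1 w
          by_cases hw : w = v
          · subst hw
            simp only [if_true]
            omega
          · simp only [hw, if_false]
            omega
        rw [Finset.sum_ite_eq' Finset.univ v] at e
        simp only [Finset.mem_univ, if_true] at e
        omega

/-- Reachability of `y = deg - 1 - c` from `y + Lap (K, …, K, 0)` in a digraph with a sink fails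
exactly when there is a nonzero `g ≤ K` with `Lap g ≤ c`. -/
theorem reach_iff (hl : ∀ v, m v v = 0) (s : V) (hs : ∀ v, m s v = 0)
    (hker : ∀ h : V → ℤ, h s = 0 → (∀ v, Lap m h v = 0) → ∀ v, h v = 0)
    (c : V → ℤ) (hc : ∀ v, 0 ≤ c v) (K : ℕ) (x y : V → ℤ)
    (hy : ∀ v, y v = deg m v - 1 - c v)
    (hx : ∀ v, x v = y v + Lap m (fun u => if u = s then 0 else (K : ℤ)) v) :
    Reach m x y ↔ ¬ ∃ g : V → ℕ, g s = 0 ∧ (∃ v, g v ≠ 0) ∧ (∀ v, g v ≤ K) ∧
      ∀ v, Lap m (fun u => (g u : ℤ)) v ≤ c v := by
  constructor
  · rintro hR ⟨g, hgs, ⟨v0, hv0⟩, hgK, hg⟩
    obtain ⟨f, hf, hst⟩ := exists_script m hl hR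
    -- `f` agrees with `K` off the sink
    have hfK : ∀ v, v ≠ s → f v = K := by
      have h1 := hker (fun v => (if v = s then 0 else (f v : ℤ)) - (if v = s then 0 else (K : ℤ)))
        (by simp) (by
          intro v
          rw [Lap_sub]
          have h2 : Lap m (fun u => if u = s then 0 else (f u : ℤ)) v =
              Lap m (fun u => (f u : ℤ)) v := by
            unfold Lap
            congr 1
            · by_cases hv : v = s
              · subst hv
                have : deg m v = 0 := by
                  unfold deg
                  exact Finset.sum_eq_zero fun u _ => by rw [hs]; rfl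
                rw [this]
                ring
              · simp [hv]
            · refine Finset.sum_congr rfl fun u _ => ?_
              by_cases hu : u = s
              · subst hu
                simp [hs]
              · simp [hu]
          rw [h2]
          have := hf v
          have := hx v
          linarith)
      intro v hv
      have := h1 v
      simp only [hv, if_false] at this
      omega
    obtain ⟨v, hv1, hv2⟩ := hst (fun v => f v - g v) (fun v => Nat.sub_le _ _) ⟨v0, by
      have hne : v0 ≠ s := by
        rintro rfl
        exact hv0 hgs
      have := hfK v0 hne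
      have := hgK v0
      omega⟩
    have hvs : v ≠ s := by
      rintro rfl
      simp [hgs] at hv1
    have e : Lap m (fun u => ((f u - g u : ℕ) : ℤ)) v =
        Lap m (fun u => (f u : ℤ)) v - Lap m (fun u => (g u : ℤ)) v := by
      rw [← Lap_sub]
      congr 1
      funext u
      have : g u ≤ f u := by
        by_cases hu : u = s
        · subst hu
          omega
        · rw [hfK u hu]
          exact hgK u
      push_cast [this]
      ring
    rw [e] at hv2
    have h3 := hf v
    have h4 := hy v
    have h5 := hg v
    linarith
  · intro hno
    have hxy : y = fun v => x v - Lap m (fun u => (((if u = s then 0 else K : ℕ)) : ℤ)) v := by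
      funext v
      rw [hx v]
      have : (fun u => (((if u = s then 0 else K : ℕ)) : ℤ)) =
          fun u => if u = s then 0 else (K : ℤ) := by
        funext u
        split_ifs <;> simp
      rw [this]
      ring
    rw [hxy]
    refine reach_of_script m hl (fun u => if u = s then 0 else K) ?_
    intro f' h1 h2
    by_contra hcon
    push Not at hcon
    apply hno
    refine ⟨fun v => (if v = s then 0 else K) - f' v, by simp, ?_, ?_, ?_⟩
    · obtain ⟨v, hv⟩ := h2
      refine ⟨v, ?_⟩
      have := h1 v
      simp only at this hv ⊢
      omega
    · intro v
      simp only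
      split_ifs
      · omega
      · omega
    · intro v
      have e : Lap m (fun u => (((if u = s then 0 else K) - f' u : ℕ) : ℤ)) v =
          Lap m (fun u => if u = s then 0 else (K : ℤ)) v - Lap m (fun u => (f' u : ℤ)) v := by
        rw [← Lap_sub]
        congr 1
        funext u
        have := h1 u
        push_cast [this]
        rfl
      by_cases hv : f' v < (if v = s then 0 else K)
      · have h3 := hcon v hv
        have h4 := hx v
        have h5 := hy v
        rw [e]
        linarith
      · have h6 : (if v = s then 0 else K) - f' v = 0 := by omega
        have h7 : Lap m (fun u => (((if u = s then 0 else K) - f' u : ℕ) : ℤ)) v ≤ 0 := by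
          unfold Lap
          have : 0 ≤ ∑ u, (m u v : ℤ) * (((if u = s then 0 else K) - f' u : ℕ) : ℤ) :=
            Finset.sum_nonneg fun _ _ => by positivity
          simp only [h6]
          simp only [Nat.cast_zero, mul_zero, zero_sub, Left.neg_nonpos_iff]
          exact this
        exact h7.trans (hc v)

end

end Pool.Agent.H577R2
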