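import Pool.Agent.H577R2.Chip

/-!
# Digraphs given by lists of arcs, and subdivision of the arcs
-/

namespace Pool.Agent.H577R2

open Finset

theorem sum_map_range {M : Type*} [AddCommMonoid M] (f : ℕ → M) (n : ℕ) :
    ((List.range n).map f).sum = ∑ i ∈ Finset.range n, f i := by
  induction n with
  | zero => simp
  | succ n ih => rw [List.range_succ, List.map_append, List.sum_append, ih,
      Finset.sum_range_succ]; simp

theorem sum_map_flatMap {α β M : Type*} [AddCommMonoid M] (l : List α) (f : α → List β)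
    (F : β → M) : ((l.flatMap f).map F).sum = (l.map (fun x => ((f x).map F).sum)).sum := by
  induction l with
  | nil => rfl
  | cons a l ih => rw [List.flatMap_cons, List.map_append, List.sum_append, ih]; simp

/-- The multiplicities of the digraph on `{0, …, n-1}` with the given list of arcs. -/
def mul (n : ℕ) (E : List (ℕ × ℕ)) (u v : Fin n) : ℕ := E.count ((u : ℕ), (v : ℕ))

/-- The Laplacian of a list of arcs. -/
def lap (E : List (ℕ × ℕ)) (g : ℕ → ℤ) (v : ℕ) : ℤ :=
  (E.map fun a => (if a.1 = v then g v else 0) - (if a.2 = v then g a.1 else 0)).sum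

/-- The out-degree in a list of arcs. -/
def outdeg (E : List (ℕ × ℕ)) (v : ℕ) : ℕ := (E.filter (fun a => decide (a.1 = v))).length

/-- The in-degree in a list of arcs. -/
def indeg (E : List (ℕ × ℕ)) (v : ℕ) : ℕ := (E.filter (fun a => decide (a.2 = v))).length

theorem outdeg_eq (E : List (ℕ × ℕ)) (v : ℕ) :
    (outdeg E v : ℤ) = (E.map fun a => if a.1 = v then (1 : ℤ) else 0).sum := by
  unfold outdeg
  induction E with
  | nil => simp
  | cons a E ih =>
    rw [List.filter_cons, List.map_cons, List.sum_cons, ← ih]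
    by_cases h : a.1 = v
    · simp [h]; ring
    · simp [h]

theorem indeg_eq (E : List (ℕ × ℕ)) (v : ℕ) :
    (indeg E v : ℤ) = (E.map fun a => if a.2 = v then (1 : ℤ) else 0).sum := by
  unfold indeg
  induction E with
  | nil => simp
  | cons a E ih =>
    rw [List.filter_cons, List.map_cons, List.sum_cons, ← ih]
    by_cases h : a.2 = v
    · simp [h]; ring
    · simp [h]

/-- The arcs have distinct endpoints in `{0, …, n-1}`. -/
def Wf (n : ℕ) (E : List (ℕ × ℕ)) : Prop := ∀ a ∈ E, a.1 < n ∧ a.2 < n ∧ a.1 ≠ a.2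

theorem Wf.mul_self {n : ℕ} {E : List (ℕ × ℕ)} (h : Wf n E) (v : Fin n) : mul n E v v = 0 := by
  unfold mul
  rw [List.count_eq_zero]
  intro hmem
  exact (h _ hmem).2.2 rfl

theorem deg_mul {n : ℕ} {E : List (ℕ × ℕ)} (h : Wf n E) (v : Fin n) :
    deg (mul n E) v = outdeg E v := by
  rw [outdeg_eq]
  unfold deg mul
  induction E with
  | nil => simp
  | cons a E ih =>
    have h1 : Wf n E := fun b hb => h b (List.mem_cons_of_mem _ hb)
    have h2 := h a (by simp)
    rw [List.map_cons, List.sum_cons, ← ih h1]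
    simp only [List.count_cons, Nat.cast_add, Finset.sum_add_distrib]
    rw [add_comm]
    congr 1
    obtain ⟨a1, a2⟩ := a
    simp only at h2
    by_cases hv : a1 = v
    · subst hv
      rw [Finset.sum_eq_single (⟨a2, h2.2.1⟩ : Fin n)]
      · simp
      · intro b _ hb
        have : a2 ≠ (b : ℕ) := fun h => hb (Fin.ext h.symm)
        simp [this]
      · simp
    · have : ∀ u : Fin n, ((a1, a2) == ((v : ℕ), (u : ℕ))) = false := by
        intro u
        simp [hv]
      simp [this, hv]

theorem sum_mul_eq {n : ℕ} {E : List (ℕ × ℕ)} (h : Wf n E) (g : ℕ → ℤ) (v : Fin n) :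
    ∑ u : Fin n, (mul n E u v : ℤ) * g u =
      (E.map fun a => if a.2 = (v : ℕ) then g a.1 else 0).sum := by
  unfold mul
  induction E with
  | nil => simp
  | cons a E ih =>
    have h1 : Wf n E := fun b hb => h b (List.mem_cons_of_mem _ hb)
    have h2 := h a (by simp)
    rw [List.map_cons, List.sum_cons, ← ih h1]
    simp only [List.count_cons, Nat.cast_add, add_mul, Finset.sum_add_distrib]
    rw [add_comm]
    congr 1
    obtain ⟨a1, a2⟩ := a
    simp only at h2
    by_cases hv : a2 = v
    · subst hv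
      rw [Finset.sum_eq_single (⟨a1, h2.1⟩ : Fin n)]
      · simp
      · intro b _ hb
        have : a1 ≠ (b : ℕ) := fun h => hb (Fin.ext h.symm)
        simp [this]
      · simp
    · have : ∀ u : Fin n, ((a1, a2) == ((u : ℕ), (v : ℕ))) = false := by
        intro u
        simp [hv]
      simp [this, hv]

theorem Lap_mul {n : ℕ} {E : List (ℕ × ℕ)} (h : Wf n E) (g : ℕ → ℤ) (v : Fin n) :
    Lap (mul n E) (fun u => g u) v = lap E g v := by
  unfold Lap lap
  rw [deg_mul h, outdeg_eq, sum_mul_eq h]
  induction E with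
  | nil => simp
  | cons a E ih =>
    have h1 : Wf n E := fun b hb => h b (List.mem_cons_of_mem _ hb)
    rw [List.map_cons, List.map_cons, List.map_cons, List.sum_cons, List.sum_cons, List.sum_cons,
      ← ih h1]
    split_ifs <;> ring

/-- The bad condition. -/
def Bad (n : ℕ) (E : List (ℕ × ℕ)) (s K : ℕ) (c : ℕ → ℤ) : Prop :=
  ∃ g : ℕ → ℕ, g s = 0 ∧ (∃ v < n, g v ≠ 0) ∧ (∀ v < n, g v ≤ K) ∧
    ∀ v < n, lap E (fun u => (g u : ℤ)) v ≤ c v

/-- The Laplacian has trivial kernel on functions vanishing at the sink. -/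
def Ker0 (n : ℕ) (E : List (ℕ × ℕ)) (s : ℕ) : Prop :=
  ∀ h : ℕ → ℤ, h s = 0 → (∀ v < n, lap E h v = 0) → ∀ v < n, h v = 0

theorem reach_iff_bad {n : ℕ} {E : List (ℕ × ℕ)} (hE : Wf n E) {s : ℕ} (hsn : s < n)
    (hs : ∀ a ∈ E, a.1 ≠ s) (hker : Ker0 n E s) (c : ℕ → ℤ) (hc : ∀ v < n, 0 ≤ c v) (K : ℕ)
    (x y : Fin n → ℤ) (hy : ∀ v, y v = outdeg E v - 1 - c v)
    (hx : ∀ v, x v = y v + K * ((outdeg E v : ℤ) - indeg E v)) :
    Reach (mul n E) x y ↔ ¬ Bad n E s K c := by
  have hs' : ∀ v, mul n E ⟨s, hsn⟩ v = 0 := by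
    intro v
    unfold mul
    rw [List.count_eq_zero]
    intro hmem
    exact hs _ hmem rfl
  rw [reach_iff (mul n E) hE.mul_self ⟨s, hsn⟩ hs' ?_ (fun v => c v) (fun v => hc v v.2) K x y ?_ ?_]
  · apply not_congr
    constructor
    · rintro ⟨g, hg1, ⟨v, hv⟩, hg3, hg4⟩
      refine ⟨fun v => if h : v < n then g ⟨v, h⟩ else 0, by simp [hsn, hg1], ⟨v, v.2, by simpa using hv⟩,
        fun v hv => by simpa [hv] using hg3 _, fun v hv => ?_⟩
      have := hg4 ⟨v, hv⟩
      rw [← Lap_mul hE _ ⟨v, hv⟩]
      convert this using 2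
      funext u
      simp
    · rintro ⟨g, hg1, ⟨v, hv, hgv⟩, hg3, hg4⟩
      refine ⟨fun v => g v, hg1, ⟨⟨v, hv⟩, hgv⟩, fun v => hg3 v v.2, fun v => ?_⟩
      rw [Lap_mul hE (fun u => (g u : ℤ))]
      exact hg4 v v.2
  · intro h h1 h2 v
    have := hker (fun v => if hv : v < n then h ⟨v, hv⟩ else 0) (by simp [hsn, h1]) (by
      intro v hv
      rw [← Lap_mul hE _ ⟨v, hv⟩]
      convert h2 ⟨v, hv⟩ using 2
      funext u
      simp) v v.2
    simpa using this
  · intro v
    rw [hy, deg_mul hE]
  · intro v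
    rw [hx]
    congr 1
    have e : (fun u : Fin n => if u = ⟨s, hsn⟩ then 0 else (K : ℤ)) =
        fun u : Fin n => (fun u : ℕ => if u = s then 0 else (K : ℤ)) u := by
      funext u
      by_cases hu : (u : ℕ) = s
      · have : u = ⟨s, hsn⟩ := Fin.ext hu
        simp [this]
      · have : u ≠ ⟨s, hsn⟩ := fun h => hu (by rw [h])
        simp [this, hu]
    rw [e, Lap_mul hE (fun u : ℕ => if u = s then 0 else (K : ℤ)), outdeg_eq, indeg_eq]
    unfold lap
    clear hx hy hs' hker e
    induction E with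
    | nil => simp
    | cons a E ih =>
      have h1 : Wf n E := fun b hb => hE b (List.mem_cons_of_mem _ hb)
      have h2 : ∀ a ∈ E, a.1 ≠ s := fun b hb => hs b (List.mem_cons_of_mem _ hb)
      have h3 := hs a (by simp)
      rw [List.map_cons, List.map_cons, List.map_cons, List.sum_cons, List.sum_cons,
        List.sum_cons, ← ih h1 h2]
      simp only [h3, if_false]
      by_cases h4 : a.1 = v
      · rw [h4] at h3
        simp only [h4, h3, if_true, if_false]
        split_ifs <;> ring
      · simp only [h4, if_false]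
        split_ifs <;> ring

/-! ### Subdivision -/

/-- The digraph obtained by subdividing every arc. -/
def subd (n : ℕ) (E : List (ℕ × ℕ)) : List (ℕ × ℕ) :=
  (List.range E.length).flatMap
    (fun i => [((E.getD i (0, 0)).1, n + i), (n + i, (E.getD i (0, 0)).2)])

theorem sum_list_getD {M : Type*} [AddCommMonoid M] (E : List (ℕ × ℕ)) (F : ℕ × ℕ → M) :
    (E.map F).sum = ∑ i ∈ Finset.range E.length, F (E.getD i (0, 0)) := by
  induction E with
  | nil => simp
  | cons a E ih =>
    rw [List.map_cons, List.sum_cons, ih, List.length_cons, Finset.sum_range_succ', add_comm]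
    simp

theorem lap_eq_sum (E : List (ℕ × ℕ)) (g : ℕ → ℤ) (v : ℕ) :
    lap E g v = ∑ i ∈ Finset.range E.length, ((if (E.getD i (0, 0)).1 = v then g v else 0) -
      (if (E.getD i (0, 0)).2 = v then g (E.getD i (0, 0)).1 else 0)) := by
  unfold lap
  rw [sum_list_getD]

theorem getD_mem {E : List (ℕ × ℕ)} {i : ℕ} (h : i < E.length) : E.getD i (0, 0) ∈ E := by
  rw [List.getD_eq_getElem _ _ h]
  exact List.getElem_mem h

theorem Wf.subd {n : ℕ} {E : List (ℕ × ℕ)} (h : Wf n E) : Wf (n + E.length) (subd n E) := by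
  intro a ha
  unfold H577R2.subd at ha
  rw [List.mem_flatMap] at ha
  obtain ⟨i, hi, ha⟩ := ha
  rw [List.mem_range] at hi
  have h1 := h _ (getD_mem hi)
  simp only [List.mem_cons, List.not_mem_nil, or_false] at ha
  rcases ha with rfl | rfl
  · exact ⟨by omega, by simp only; omega, by simp only; omega⟩
  · exact ⟨by simp only; omega, by simp only; omega, by simp only; omega⟩

theorem nodup_subd {n : ℕ} {E : List (ℕ × ℕ)} (h : Wf n E) : (subd n E).Nodup := by
  unfold subd
  rw [List.nodup_flatMap]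
  refine ⟨?_, ?_⟩
  · intro i hi
    rw [List.mem_range] at hi
    have h1 := h _ (getD_mem hi)
    simp only [List.nodup_cons, List.mem_singleton, Prod.mk.injEq, List.not_mem_nil,
      not_false_eq_true, List.nodup_nil, and_true]
    omega
  · refine (List.nodup_range (n := E.length)).imp_of_mem ?_
    intro i j hi hj hij
    rw [List.mem_range] at hi hj
    have h1 := h _ (getD_mem hi)
    have h2 := h _ (getD_mem hj)
    simp only [Function.onFun, List.disjoint_cons_left, List.mem_cons, Prod.mk.injEq,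
      List.not_mem_nil, or_false, List.disjoint_nil_left, and_true]
    omega

theorem lap_subd_lt {n : ℕ} {E : List (ℕ × ℕ)} (h : Wf n E) (g : ℕ → ℤ) {v : ℕ} (hv : v < n) :
    lap (subd n E) g v = ∑ i ∈ Finset.range E.length, ((if (E.getD i (0, 0)).1 = v then g v else 0) -
      (if (E.getD i (0, 0)).2 = v then g (n + i) else 0)) := by
  unfold lap subd
  rw [sum_map_flatMap, sum_map_range]
  refine Finset.sum_congr rfl fun i hi => ?_
  have h1 : n + i ≠ v := by omega
  simp [h1]
  ring

theorem lap_subd_ge {n : ℕ} {E : List (ℕ × ℕ)} (h : Wf n E) (g : ℕ → ℤ) {j : ℕ}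
    (hj : j < E.length) :
    lap (subd n E) g (n + j) = g (n + j) - g (E.getD j (0, 0)).1 := by
  unfold lap subd
  rw [sum_map_flatMap, sum_map_range, Finset.sum_eq_single j]
  · have h1 := h _ (getD_mem hj)
    have h2 : (E.getD j (0, 0)).1 ≠ n + j := by omega
    have h3 : (E.getD j (0, 0)).2 ≠ n + j := by omega
    simp only [List.map_cons, List.map_nil, List.sum_cons, List.sum_nil, h2, h3, if_true, if_false]
    ring
  · intro i hi hij
    rw [Finset.mem_range] at hi
    have h1 := h _ (getD_mem hi)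
    have h2 : (E.getD i (0, 0)).1 ≠ n + j := by omega
    have h3 : (E.getD i (0, 0)).2 ≠ n + j := by omega
    have h4 : n + i ≠ n + j := by omega
    simp only [List.map_cons, List.map_nil, List.sum_cons, List.sum_nil, h2, h3, h4, if_false]
    ring
  · intro h1
    exact absurd (Finset.mem_range.2 hj) h1

theorem Ker0.subd {n : ℕ} {E : List (ℕ × ℕ)} (h : Wf n E) {s : ℕ} (hk : Ker0 n E s) :
    Ker0 (n + E.length) (subd n E) s := by
  intro g hgs hg v hv
  have h1 : ∀ j < E.length, g (n + j) = g (E.getD j (0, 0)).1 := by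
    intro j hj
    have := hg (n + j) (by omega)
    rw [lap_subd_ge h g hj] at this
    linarith
  have h2 : ∀ v < n, g v = 0 := by
    refine hk g hgs ?_
    intro v hv
    have := hg v (by omega)
    rw [lap_subd_lt h g hv] at this
    rw [lap_eq_sum]
    refine Eq.trans (Finset.sum_congr rfl fun i hi => ?_) this
    rw [h1 i (Finset.mem_range.1 hi)]
  by_cases hvn : v < n
  · exact h2 v hvn
  · obtain ⟨j, rfl⟩ := Nat.exists_eq_add_of_le (not_lt.1 hvn)
    rw [h1 j (by omega)]
    exact h2 _ (h _ (getD_mem (by omega))).1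

theorem bad_subd {n : ℕ} {E : List (ℕ × ℕ)} (h : Wf n E) {s : ℕ} (hs : s < n) (K : ℕ)
    (c : ℕ → ℤ) (hc : ∀ v, n ≤ v → c v = 0) :
    Bad (n + E.length) (subd n E) s K c ↔ Bad n E s K c := by
  constructor
  · rintro ⟨g, hgs, ⟨v, hv, hgv⟩, hgK, hg⟩
    have h1 : ∀ j < E.length, g (n + j) ≤ g (E.getD j (0, 0)).1 := by
      intro j hj
      have := hg (n + j) (by omega)
      rw [lap_subd_ge h _ hj, hc _ (by omega)] at this
      omega
    refine ⟨g, hgs, ?_, fun v hv => hgK v (by omega), ?_⟩
    · by_cases hvn : v < n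
      · exact ⟨v, hvn, hgv⟩
      · obtain ⟨j, rfl⟩ := Nat.exists_eq_add_of_le (not_lt.1 hvn)
        have := h1 j (by omega)
        exact ⟨_, (h _ (getD_mem (by omega : j < E.length))).1, by omega⟩
    · intro v hv
      refine le_trans ?_ (hg v (by omega))
      rw [lap_subd_lt h _ hv, lap_eq_sum]
      refine Finset.sum_le_sum fun i hi => ?_
      have := h1 i (Finset.mem_range.1 hi)
      split_ifs <;> push_cast <;> omega
  · rintro ⟨g, hgs, ⟨v, hv, hgv⟩, hgK, hg⟩
    refine ⟨fun v => if v < n then g v else g (E.getD (v - n) (0, 0)).1, by simp [hs, hgs],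
      ⟨v, by omega, by simpa [hv] using hgv⟩, ?_, ?_⟩
    · intro v hv
      by_cases hvn : v < n
      · simpa [hvn] using hgK v hvn
      · simp only [hvn, if_false]
        exact hgK _ (h _ (getD_mem (by omega))).1
    · intro v hv
      by_cases hvn : v < n
      · refine le_trans (le_of_eq ?_) (hg v hvn)
        rw [lap_subd_lt h _ hvn, lap_eq_sum]
        refine Finset.sum_congr rfl fun i hi => ?_
        have h2 : ¬ (n + i < n) := by omega
        simp [hvn]
      · obtain ⟨j, rfl⟩ := Nat.exists_eq_add_of_le (not_lt.1 hvn)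
        rw [lap_subd_ge h _ (by omega), hc _ (by omega)]
        have h3 := (h _ (getD_mem (by omega : j < E.length))).1
        simp only [h3, if_true]
        simp

end Pool.Agent.H577R2
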