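import Pool.Agent.H577R2.Chain

/-!
# The digraph of a vector-sum problem
-/

namespace Pool.Agent.H577R2

open Finset

/-- The arcs of the chain digraph. -/
def arcs (L J q k : ℕ) (r : ℕ → ℕ → ℕ) (b : ℕ → ℕ) : List (ℕ × ℕ) :=
  (List.range (L + 1)).flatMap (fun i => List.replicate q (i, i + 1)) ++
  (List.range J).flatMap (fun j =>
    (L + 1 + j, L + 2 + j) :: ((List.range L).flatMap (fun e =>
        List.replicate (b e + q - k * r j e) (L + 1 + j, 1 + e) ++
        List.replicate (k * r j e + q - b e) (L + 1 + j, 0)) ++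
      List.replicate (q - 1) (L + 1 + j, 0)))

theorem sum_map_replicate {α M : Type*} [AddCommMonoid M] (n : ℕ) (a : α) (F : α → M) :
    ((List.replicate n a).map F).sum = n • F a := by
  rw [List.map_replicate, List.sum_replicate]

theorem arcs_sum {M : Type*} [AddCommMonoid M] (L J q k : ℕ) (r : ℕ → ℕ → ℕ) (b : ℕ → ℕ)
    (F : ℕ × ℕ → M) :
    ((arcs L J q k r b).map F).sum = ∑ i ∈ range (L + 1), q • F (i, i + 1) +
      ∑ j ∈ range J, (F (L + 1 + j, L + 2 + j) +
        (∑ e ∈ range L, ((b e + q - k * r j e) • F (L + 1 + j, 1 + e) +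
          (k * r j e + q - b e) • F (L + 1 + j, 0)) + (q - 1) • F (L + 1 + j, 0))) := by
  unfold arcs
  rw [List.map_append, List.sum_append, sum_map_flatMap, sum_map_range, sum_map_flatMap,
    sum_map_range]
  congr 1
  · refine Finset.sum_congr rfl fun i _ => ?_
    rw [sum_map_replicate]
  · refine Finset.sum_congr rfl fun j _ => ?_
    rw [List.map_cons, List.sum_cons, List.map_append, List.sum_append, sum_map_flatMap,
      sum_map_range, sum_map_replicate]
    congr 2
    refine Finset.sum_congr rfl fun e _ => ?_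
    rw [List.map_append, List.sum_append, sum_map_replicate, sum_map_replicate]

theorem mem_arcs {L J q k : ℕ} {r : ℕ → ℕ → ℕ} {b : ℕ → ℕ} {a : ℕ × ℕ}
    (h : a ∈ arcs L J q k r b) : (a.2 = a.1 + 1 ∧ a.1 < L + 1 + J) ∨
      (L < a.1 ∧ a.1 < L + 1 + J ∧ a.2 ≤ L) := by
  unfold arcs at h
  simp only [List.mem_append, List.mem_flatMap, List.mem_range, List.mem_replicate,
    List.mem_cons] at h
  rcases h with ⟨i, hi, _, rfl⟩ | ⟨j, hj, rfl | ⟨e, he, ⟨_, rfl⟩ | ⟨_, rfl⟩⟩ | ⟨_, rfl⟩⟩
  · left
    exact ⟨rfl, by simp only; omega⟩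
  · left
    exact ⟨by simp only; omega, by simp only; omega⟩
  · right
    exact ⟨by simp only; omega, by simp only; omega, by simp only; omega⟩
  · right
    exact ⟨by simp only; omega, by simp only; omega, by simp only; omega⟩
  · right
    exact ⟨by simp only; omega, by simp only; omega, by simp only; omega⟩

theorem skipFree_arcs {L J q k : ℕ} {r : ℕ → ℕ → ℕ} {b : ℕ → ℕ} (hq : 0 < q) :
    SkipFree (L + 1 + J) (arcs L J q k r b) where
  wf := by
    intro a ha
    have := mem_arcs ha
    omega
  sink := by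
    intro a ha
    have := mem_arcs ha
    omega
  skip := by
    intro a ha h
    have := mem_arcs ha
    omega
  fwd := by
    intro i hi
    unfold arcs
    simp only [List.mem_append, List.mem_flatMap, List.mem_range, List.mem_replicate,
      List.mem_cons, Prod.mk.injEq]
    by_cases hi2 : i < L + 1
    · left
      exact ⟨i, hi2, by omega, rfl, rfl⟩
    · right
      exact ⟨i - (L + 1), by omega, Or.inl ⟨by omega, by omega⟩⟩

/-- The vector-sum problem: is there a multiset of exactly `k` of the `J` vectors with sum `b`? -/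
def Sol (L J k : ℕ) (r : ℕ → ℕ → ℕ) (b : ℕ → ℕ) : Prop :=
  ∃ c : ℕ → ℕ, ∑ j ∈ range J, c j = k ∧ ∀ e < L, ∑ j ∈ range J, c j * r j e = b e

section

variable {L J q k R : ℕ} {r : ℕ → ℕ → ℕ} {b : ℕ → ℕ}

/-- The start: `k` chips on the vertex `0`. -/
def c0 (k : ℕ) (v : ℕ) : ℤ := if v = 0 then k else 0

theorem kr_le (hq : R * k * k + k < q) (hr : ∀ j e, r j e ≤ R) (hk : 1 ≤ k) (j e : ℕ) :
    k * r j e ≤ q := by
  have h1 : k * r j e ≤ k * R := Nat.mul_le_mul_left _ (hr j e)
  have h2 : R * k ≤ R * k * k := Nat.le_mul_of_pos_right _ hk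
  rw [mul_comm k R] at h1
  omega

theorem b_le (hq : R * k * k + k < q) (hb : ∀ e, b e ≤ R) (hk : 1 ≤ k) (e : ℕ) : b e ≤ q := by
  have h1 := hb e
  have h2 : R * k ≤ R * k * k := Nat.le_mul_of_pos_right _ hk
  have h3 : R ≤ R * k := Nat.le_mul_of_pos_right _ hk
  omega

theorem sum_weights_eq_zero (hq : R * k * k + k < q) (hr : ∀ j e, r j e ≤ R) (hb : ∀ e, b e ≤ R)
    (hk : 1 ≤ k) (g : ℕ → ℤ) (e : ℕ) (he : e ≤ L) :
    ((arcs L J q k r b).map fun a => ((g a.1 : ℤ) : ZMod q) *
      ((if a.1 = 1 + e then (1 : ZMod q) else if L + 2 ≤ a.1 ∧ e < L then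
          (k * r (a.1 - (L + 2)) e : ZMod q) - b e else 0) -
        (if a.2 = 1 + e then (1 : ZMod q) else if L + 2 ≤ a.2 ∧ e < L then
          (k * r (a.2 - (L + 2)) e : ZMod q) - b e else 0))).sum = 0 := by
  have hkr : ∀ j e, k * r j e ≤ q := kr_le hq hr hk
  have hbq : ∀ e, b e ≤ q := b_le hq hb hk
  rw [arcs_sum]
  have hq0 : (q : ZMod q) = 0 := ZMod.natCast_self q
  have h1 : ∀ i ∈ range (L + 1), ∀ x : ZMod q, q • x = 0 := by
    intro i _ x
    rw [nsmul_eq_mul, hq0, zero_mul]
  rw [Finset.sum_eq_zero (fun i hi => h1 i hi _), zero_add]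
  refine Finset.sum_eq_zero fun j hj => ?_
  have e1 : ∀ e', ¬ (L + 2 ≤ 1 + e' ∧ e < L) ∨ L < e' := by
    intro e'
    omega
  have h0 : ¬ (0 = 1 + e) := by omega
  have h0' : ¬ (L + 2 ≤ 0 ∧ e < L) := by omega
  have hL2 : L + 2 + j ≠ 1 + e := by omega
  have hL3 : L + 2 + j - (L + 2) = j := by omega
  simp only [h0, h0', if_false, hL2, hL3, sub_zero]
  set A : ZMod q := if L + 1 + j = 1 + e then (1 : ZMod q) else
    if L + 2 ≤ L + 1 + j ∧ e < L then (k * r (L + 1 + j - (L + 2)) e : ZMod q) - b e else 0 with hA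
  set G : ZMod q := ((g (L + 1 + j) : ℤ) : ZMod q) with hG
  have h2 : ∑ e' ∈ range L, ((b e' + q - k * r j e') •
      (G * (A - if 1 + e' = 1 + e then (1 : ZMod q) else
        if L + 2 ≤ 1 + e' ∧ e < L then (k * r (1 + e' - (L + 2)) e : ZMod q) - b e else 0)) +
      (k * r j e' + q - b e') • (G * A)) =
      if e < L then - G * (b e - k * r j e) else 0 := by
    have h3 : ∀ e' ∈ range L, ((b e' + q - k * r j e') •
      (G * (A - if 1 + e' = 1 + e then (1 : ZMod q) else
        if L + 2 ≤ 1 + e' ∧ e < L then (k * r (1 + e' - (L + 2)) e : ZMod q) - b e else 0)) +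
      (k * r j e' + q - b e') • (G * A)) =
      if e' = e then - G * (b e - k * r j e) else 0 := by
      intro e' he'
      rw [Finset.mem_range] at he'
      have h4 : ¬ (L + 2 ≤ 1 + e' ∧ e < L) := by omega
      have h5 : k * r j e' ≤ b e' + q := (hkr j e').trans (by omega)
      have h6 : b e' ≤ k * r j e' + q := (hbq e').trans (by omega)
      have h7 : ((b e' + q - k * r j e' : ℕ) : ZMod q) = b e' - k * r j e' := by
        rw [Nat.cast_sub h5]
        push_cast
        rw [hq0]
        ring
      have h8 : ((k * r j e' + q - b e' : ℕ) : ZMod q) = k * r j e' - b e' := by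
        rw [Nat.cast_sub h6]
        push_cast
        rw [hq0]
        ring
      rw [nsmul_eq_mul, nsmul_eq_mul, h7, h8, if_neg h4]
      by_cases h9 : e' = e
      · subst h9
        simp only [if_true]
        ring
      · have h10 : ¬ (1 + e' = 1 + e) := by omega
        rw [if_neg h10, if_neg h9]
        ring
    rw [Finset.sum_congr rfl h3, Finset.sum_ite_eq']
    simp [Finset.mem_range]
  rw [h2]
  have h11 : ((q - 1 : ℕ) : ZMod q) = -1 := by
    rw [Nat.cast_sub (by omega)]
    rw [hq0]
    simp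
  rw [nsmul_eq_mul, h11]
  by_cases h12 : e < L
  · have h13 : L + 2 ≤ L + 2 + j ∧ e < L := ⟨by omega, h12⟩
    rw [if_pos h13, if_pos h12]
    ring
  · have h13 : ¬ (L + 2 ≤ L + 2 + j ∧ e < L) := by omega
    rw [if_neg h13, if_neg h12]
    ring

theorem range_split (M : Type*) [AddCommMonoid M] (f : ℕ → M) (L J : ℕ) :
    ∑ v ∈ range (L + 1 + J + 1), f v = f 0 + ∑ e ∈ range (L + 1), f (1 + e) +
      ∑ j ∈ range J, f (L + 2 + j) := by
  have h : L + 1 + J + 1 = (1 + (L + 1)) + J := by omega
  rw [h, Finset.sum_range_add, Finset.sum_range_add]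
  congr 1
  · simp
  · refine Finset.sum_congr rfl fun j _ => ?_
    congr 1
    omega

/-- A bad script yields a solution. -/
theorem sol_of_bad (hq : R * k * k + k < q) (hr : ∀ j e, r j e ≤ R) (hb : ∀ e, b e ≤ R)
    (hk : 1 ≤ k) (hgr : ∀ j < J, ∃ e < L, b e = 1 ∧ 1 ≤ r j e) {K : ℕ}
    (h : Bad (L + 1 + J + 1) (arcs L J q k r b) (L + 1 + J) K (c0 k)) : Sol L J k r b := by
  obtain ⟨g, hgs, ⟨v0, hv0, hgv0⟩, -, hg⟩ := h
  have hsf : SkipFree (L + 1 + J) (arcs L J q k r b) := skipFree_arcs (by omega)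
  -- the new configuration
  obtain ⟨c, hc⟩ : ∃ c : ℕ → ℕ, ∀ v < L + 1 + J + 1,
      (c v : ℤ) = c0 k v - lap (arcs L J q k r b) (fun u => (g u : ℤ)) v := by
    refine ⟨fun v => (c0 k v - lap (arcs L J q k r b) (fun u => (g u : ℤ)) v).toNat, ?_⟩
    intro v hv
    have := hg v hv
    simp only
    omega
  have htot : ∑ v ∈ range (L + 1 + J + 1), c v = k := by
    have h1 := pairing (R := ℤ) hsf.wf (fun u => (g u : ℤ)) (fun _ => 1)
    simp only [Int.cast_id, one_mul, sub_self, mul_zero, List.map_const', List.sum_replicate,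
      smul_zero] at h1
    have h2 : ∑ v ∈ range (L + 1 + J + 1), (c v : ℤ) = ∑ v ∈ range (L + 1 + J + 1), c0 k v := by
      rw [Finset.sum_congr rfl (fun v hv => hc v (Finset.mem_range.1 hv)),
        Finset.sum_sub_distrib, h1, sub_zero]
    have h3 : ∑ v ∈ range (L + 1 + J + 1), c0 k v = k := by
      unfold c0
      rw [Finset.sum_ite_eq']
      simp
    rw [h3] at h2
    exact_mod_cast h2
  rw [range_split ℕ] at htot
  have hmod : ∀ e ≤ L, ((c (1 + e) : ZMod q)) + ∑ j ∈ range J, (if e < L then
      (k * r j e : ZMod q) - b e else 0) * (c (L + 2 + j) : ZMod q) = 0 := by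
    intro e he
    have h1 := pairing (R := ZMod q) hsf.wf (fun u => (g u : ℤ))
      (fun v => if v = 1 + e then (1 : ZMod q) else if L + 2 ≤ v ∧ e < L then
          (k * r (v - (L + 2)) e : ZMod q) - b e else 0)
    rw [sum_weights_eq_zero hq hr hb hk (fun u => (g u : ℤ)) e he] at h1
    have h2 : ∀ v ∈ range (L + 1 + J + 1),
        (if v = 1 + e then (1 : ZMod q) else if L + 2 ≤ v ∧ e < L then
          (k * r (v - (L + 2)) e : ZMod q) - b e else 0) *
          ((lap (arcs L J q k r b) (fun u => (g u : ℤ)) v : ℤ) : ZMod q) =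
        - ((if v = 1 + e then (1 : ZMod q) else if L + 2 ≤ v ∧ e < L then
          (k * r (v - (L + 2)) e : ZMod q) - b e else 0) * (c v : ZMod q)) := by
      intro v hv
      have h3 := hc v (Finset.mem_range.1 hv)
      by_cases hv0 : v = 0
      · have h4 : ¬ (v = 1 + e) := by omega
        have h5 : ¬ (L + 2 ≤ v ∧ e < L) := by omega
        rw [if_neg h4, if_neg h5]
        ring
      · have h4 : lap (arcs L J q k r b) (fun u => (g u : ℤ)) v = - (c v : ℤ) := by
          rw [h3]
          unfold c0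
          rw [if_neg hv0]
          ring
        rw [h4]
        push_cast
        ring
    rw [Finset.sum_congr rfl h2, Finset.sum_neg_distrib, neg_eq_zero, range_split (ZMod q)] at h1
    have h4 : ¬ (0 = 1 + e) := by omega
    have h5 : ¬ (L + 2 ≤ 0 ∧ e < L) := by omega
    rw [if_neg h4, if_neg h5, zero_mul, zero_add] at h1
    refine Eq.trans ?_ h1
    congr 1
    · rw [Finset.sum_eq_single e]
      · simp
      · intro e' he' hne
        have he'' := Finset.mem_range.1 he'
        have h6 : ¬ (1 + e' = 1 + e) := by omega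
        have h7 : ¬ (L + 2 ≤ 1 + e' ∧ e < L) := by omega
        rw [if_neg h6, if_neg h7, zero_mul]
      · intro h6
        exact absurd (Finset.mem_range.2 (by omega)) h6
    · refine Finset.sum_congr rfl fun j _ => ?_
      have h6 : ¬ (L + 2 + j = 1 + e) := by omega
      have h7 : L + 2 + j - (L + 2) = j := by omega
      have h8 : (L + 2 ≤ L + 2 + j ∧ e < L) ↔ e < L := by
        constructor
        · exact fun h => h.2
        · exact fun h => ⟨by omega, h⟩
      rw [if_neg h6, h7]
      simp only [h8]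
  -- bounds
  have hCk : ∑ j ∈ range J, c (L + 2 + j) ≤ k := by omega
  have hVk : ∀ e ≤ L, c (1 + e) ≤ k := by
    intro e he
    have := Finset.single_le_sum (f := fun e => c (1 + e)) (s := range (L + 1))
      (fun _ _ => Nat.zero_le _) (Finset.mem_range.2 (by omega : e < L + 1))
    omega
  have hVL : c (1 + L) = 0 := by
    have h1 := hmod L le_rfl
    simp only [lt_irrefl, if_false, zero_mul, Finset.sum_const_zero, add_zero] at h1
    rw [ZMod.natCast_eq_zero_iff] at h1
    have h2 := hVk L le_rfl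
    exact Nat.eq_zero_of_dvd_of_lt h1 (by
      have : k < q := by omega
      omega)
  have heq : ∀ e < L, c (1 + e) + k * ∑ j ∈ range J, c (L + 2 + j) * r j e =
      (∑ j ∈ range J, c (L + 2 + j)) * b e := by
    intro e he
    have h1 := hmod e he.le
    simp only [he, if_true] at h1
    have h2 : ((c (1 + e) + k * ∑ j ∈ range J, c (L + 2 + j) * r j e : ℕ) : ZMod q) =
        (((∑ j ∈ range J, c (L + 2 + j)) * b e : ℕ) : ZMod q) := by
      push_cast
      rw [← sub_eq_zero, ← h1, Finset.mul_sum, Finset.sum_mul, add_sub_assoc,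
        ← Finset.sum_sub_distrib]
      congr 1
      refine Finset.sum_congr rfl fun j _ => ?_
      ring
    rw [ZMod.natCast_eq_natCast_iff'] at h2
    have h3 : ∑ j ∈ range J, c (L + 2 + j) * r j e ≤ k * R := by
      calc ∑ j ∈ range J, c (L + 2 + j) * r j e ≤ ∑ j ∈ range J, c (L + 2 + j) * R :=
            Finset.sum_le_sum fun j _ => Nat.mul_le_mul_left _ (hr j e)
        _ = (∑ j ∈ range J, c (L + 2 + j)) * R := by rw [Finset.sum_mul]
        _ ≤ k * R := Nat.mul_le_mul_right _ hCk
    have h4 : k * ∑ j ∈ range J, c (L + 2 + j) * r j e ≤ k * (k * R) := Nat.mul_le_mul_left _ h3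
    have h5 : k * (k * R) = R * k * k := by ring
    have h6 := hVk e he.le
    have h7 : (∑ j ∈ range J, c (L + 2 + j)) * b e ≤ k * R := Nat.mul_le_mul hCk (hb e)
    have h8 : R * k ≤ R * k * k := Nat.le_mul_of_pos_right _ hk
    have h9 : k * R = R * k := by ring
    rw [Nat.mod_eq_of_lt (by omega), Nat.mod_eq_of_lt (by omega)] at h2
    exact h2
  -- some vector is chosen
  by_cases hz : ∃ j < J, c (L + 2 + j) ≠ 0
  · obtain ⟨j, hj, hcj⟩ := hz
    obtain ⟨e, he, hbe, hre⟩ := hgr j hj
    have h1 := heq e he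
    rw [hbe, mul_one] at h1
    have h2 : 1 ≤ ∑ j ∈ range J, c (L + 2 + j) * r j e := by
      have := Finset.single_le_sum (f := fun j => c (L + 2 + j) * r j e) (s := range J)
        (fun _ _ => Nat.zero_le _) (Finset.mem_range.2 hj)
      have h3 : 1 ≤ c (L + 2 + j) * r j e := Nat.mul_pos (by omega) (by omega)
      omega
    have h3 : k * 1 ≤ k * ∑ j ∈ range J, c (L + 2 + j) * r j e := Nat.mul_le_mul_left _ h2
    have h4 : ∑ j ∈ range J, c (L + 2 + j) = k := by omega
    have h5 : ∑ e ∈ range (L + 1), c (1 + e) = 0 := by omega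
    refine ⟨fun j => c (L + 2 + j), h4, ?_⟩
    intro e he
    have h6 := heq e he
    have h7 : c (1 + e) = 0 :=
      (Finset.sum_eq_zero_iff.1 h5) e (Finset.mem_range.2 (by omega))
    rw [h7, zero_add, h4] at h6
    exact Nat.eq_of_mul_eq_mul_left hk h6
  · push Not at hz
    exfalso
    have h1 : ∑ j ∈ range J, c (L + 2 + j) = 0 :=
      Finset.sum_eq_zero fun j hj => hz j (Finset.mem_range.1 hj)
    have h2 : ∀ e < L + 1, c (1 + e) = 0 := by
      intro e he
      by_cases heL : e < L
      · have h3 := heq e heL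
        rw [h1, zero_mul] at h3
        omega
      · have : e = L := by omega
        rw [this]
        exact hVL
    have h3 : ∑ e ∈ range (L + 1), c (1 + e) = 0 :=
      Finset.sum_eq_zero fun e he => h2 e (Finset.mem_range.1 he)
    have h4 : c 0 = k := by omega
    have h5 : ∀ v < L + 1 + J + 1, lap (arcs L J q k r b) (fun u => (g u : ℤ)) v = 0 := by
      intro v hv
      have h6 := hc v hv
      have h7 : (c v : ℤ) = c0 k v := by
        unfold c0
        by_cases hv0 : v = 0
        · subst hv0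
          simp [h4]
        · rw [if_neg hv0]
          by_cases hv1 : v < L + 2
          · have := h2 (v - 1) (by omega)
            rw [show 1 + (v - 1) = v by omega] at this
            rw [this]
            rfl
          · have := hz (v - (L + 2)) (by omega)
            rw [show L + 2 + (v - (L + 2)) = v by omega] at this
            rw [this]
            rfl
      linarith
    have h6 := hsf.ker (fun u => (g u : ℤ)) (by simp [hgs]) h5 v0 hv0
    omega

/-! ### From solutions to bad scripts -/

theorem lap_add (E : List (ℕ × ℕ)) (g h : ℕ → ℤ) (v : ℕ) :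
    lap E (fun u => g u + h u) v = lap E g v + lap E h v := by
  unfold lap
  induction E with
  | nil => simp
  | cons a E ih =>
    rw [List.map_cons, List.map_cons, List.map_cons, List.sum_cons, List.sum_cons, List.sum_cons, ih]
    split_ifs <;> ring

theorem lap_neg (E : List (ℕ × ℕ)) (g : ℕ → ℤ) (v : ℕ) :
    lap E (fun u => - g u) v = - lap E g v := by
  unfold lap
  induction E with
  | nil => simp
  | cons a E ih =>
    rw [List.map_cons, List.map_cons, List.sum_cons, List.sum_cons, ih]
    split_ifs <;> ring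

theorem lap_zero (E : List (ℕ × ℕ)) (v : ℕ) : lap E (fun _ => 0) v = 0 := by
  unfold lap
  induction E with
  | nil => simp
  | cons a E ih =>
    rw [List.map_cons, List.sum_cons, ih]
    simp

theorem lap_congr (E : List (ℕ × ℕ)) {g h : ℕ → ℤ} (H : ∀ a ∈ E, g a.1 = h a.1) (v : ℕ) :
    lap E g v = lap E h v := by
  unfold lap
  congr 1
  refine List.map_congr_left fun a ha => ?_
  rw [H a ha]
  by_cases h1 : a.1 = v
  · rw [← h1, H a ha]
  · simp [h1]

/-- The principal functions. -/
def Prin (E : List (ℕ × ℕ)) (n : ℕ) : AddSubgroup (ℕ → ℤ) where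
  carrier := {h | ∃ g : ℕ → ℤ, g n = 0 ∧ ∀ v < n + 1, lap E g v = h v}
  zero_mem' := ⟨fun _ => 0, rfl, fun v _ => lap_zero E v⟩
  add_mem' := by
    rintro h1 h2 ⟨g1, hg1, hh1⟩ ⟨g2, hg2, hh2⟩
    refine ⟨fun u => g1 u + g2 u, by simp [hg1, hg2], fun v hv => ?_⟩
    rw [lap_add, hh1 v hv, hh2 v hv]
    rfl
  neg_mem' := by
    rintro h1 ⟨g1, hg1, hh1⟩
    refine ⟨fun u => - g1 u, by simp [hg1], fun v hv => ?_⟩
    rw [lap_neg, hh1 v hv]
    rfl

theorem lap_single (E : List (ℕ × ℕ)) (u v : ℕ) : lap E (Pi.single u 1) v =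
    (E.map (fun a => if a.1 = u then (Pi.single u 1 - Pi.single a.2 1 : ℕ → ℤ) else 0)).sum v := by
  unfold lap
  induction E with
  | nil => simp
  | cons a E ih =>
    rw [List.map_cons, List.map_cons, List.sum_cons, List.sum_cons, ih, Pi.add_apply]
    congr 1
    obtain ⟨a1, a2⟩ := a
    simp only
    by_cases h1 : a1 = u
    · subst h1
      simp only [if_true, Pi.sub_apply, Pi.single_apply]
      congr 1
      · by_cases h2 : a1 = v
        · simp [h2]
        · have : v ≠ a1 := fun h => h2 h.symm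
          simp [h2, this]
      · by_cases h2 : a2 = v
        · simp [h2]
        · have : v ≠ a2 := fun h => h2 h.symm
          simp [h2, this]
    · rw [if_neg h1]
      simp only [Pi.single_apply, h1, if_false, Pi.zero_apply]
      by_cases h2 : a1 = v
      · have h3 : v ≠ u := fun h => h1 (h2.trans h)
        simp [h3]
      · simp [h2]

/-- The relations of the chain digraph imply that solutions are null classes. -/
theorem group_part {Q : Type*} [AddCommGroup Q] (hq : R * k * k + k < q)
    (hr : ∀ j e, r j e ≤ R) (hb : ∀ e, b e ≤ R) (hk : 1 ≤ k) (π : ℕ → Q)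
    (hrel : ∀ u < L + 1 + J,
      ((arcs L J q k r b).map (fun a => if a.1 = u then π u - π a.2 else 0)).sum = 0)
    (c : ℕ → ℕ) (hc1 : ∑ j ∈ range J, c j = k) (hc2 : ∀ e < L, ∑ j ∈ range J, c j * r j e = b e) :
    ∑ j ∈ range J, (c j : ℤ) • (π (L + 2 + j) - π 0) = 0 := by
  have hkr : ∀ j e, k * r j e ≤ q := kr_le hq hr hk
  have hbq : ∀ e, b e ≤ q := b_le hq hb hk
  obtain ⟨δ, hδ⟩ : ∃ δ : ℕ → Q, ∀ v, δ v = π v - π 0 := ⟨fun v => π v - π 0, fun _ => rfl⟩
  have hstep1 : ∀ i ≤ L, q • (π i - π (i + 1)) = 0 := by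
    intro i hi
    have h1 := hrel i (by omega)
    rw [arcs_sum, Finset.sum_eq_single i, Finset.sum_eq_zero, add_zero] at h1
    · simpa only [if_true] using h1
    · intro j _
      have h2 : ¬ (L + 1 + j = i) := by omega
      simp [h2]
    · intro i' _ hne
      simp [hne]
    · intro h2
      exact absurd (Finset.mem_range.2 (by omega)) h2
  have hqδ : ∀ i ≤ L + 1, q • δ i = 0 := by
    intro i
    induction i with
    | zero => intro _; simp [hδ]
    | succ i ih =>
      intro hi
      have h1 := ih (by omega)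
      have h2 := hstep1 i (by omega)
      have h3 : δ (i + 1) = δ i - (π i - π (i + 1)) := by
        rw [hδ, hδ]
        abel
      rw [h3, smul_sub, h1, h2, sub_zero]
  have hstep2 : ∀ j < J, q • δ (L + 1 + j) = 0 →
      δ (L + 2 + j) = ∑ e ∈ range L, ((k * r j e : ℤ) - b e) • δ (1 + e) := by
    intro j hj hqj
    have h1 := hrel (L + 1 + j) (by omega)
    rw [arcs_sum, Finset.sum_eq_zero, zero_add, Finset.sum_eq_single j] at h1
    · simp only [if_true] at h1
      have h2 : ∀ e ∈ range L, (b e + q - k * r j e) • (π (L + 1 + j) - π (1 + e)) +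
          (k * r j e + q - b e) • (π (L + 1 + j) - π 0) =
          ((k * r j e : ℤ) - b e) • δ (1 + e) := by
        intro e he
        have he' := Finset.mem_range.1 he
        have h5 : k * r j e ≤ b e + q := (hkr j e).trans (by omega)
        have h6 : b e ≤ k * r j e + q := (hbq e).trans (by omega)
        have h7 : π (L + 1 + j) - π (1 + e) = δ (L + 1 + j) - δ (1 + e) := by
          rw [hδ, hδ]
          abel
        have h8 : π (L + 1 + j) - π 0 = δ (L + 1 + j) := (hδ _).symm
        have h9 : (q : ℤ) • δ (1 + e) = 0 := by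
          rw [natCast_zsmul]
          exact hqδ _ (by omega)
        have h10 : (q : ℤ) • δ (L + 1 + j) = 0 := by
          rw [natCast_zsmul]
          exact hqj
        rw [h7, h8, ← natCast_zsmul, ← natCast_zsmul, Nat.cast_sub h5, Nat.cast_sub h6]
        push_cast
        have h11 : ((b e : ℤ) + q - k * r j e) • (δ (L + 1 + j) - δ (1 + e)) +
            ((k : ℤ) * r j e + q - b e) • δ (L + 1 + j) =
            ((k * r j e : ℤ) - b e) • δ (1 + e) + (2 : ℤ) • ((q : ℤ) • δ (L + 1 + j)) -
              (q : ℤ) • δ (1 + e) := by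
          module
        rw [h11, h9, h10]
        simp
      rw [Finset.sum_congr rfl h2] at h1
      have h3 : π (L + 1 + j) - π (L + 2 + j) = δ (L + 1 + j) - δ (L + 2 + j) := by
        rw [hδ, hδ]
        abel
      have h4 : (q - 1) • (π (L + 1 + j) - π 0) = - δ (L + 1 + j) := by
        have h5 : π (L + 1 + j) - π 0 = δ (L + 1 + j) := (hδ _).symm
        have h6 : q = (q - 1) + 1 := by omega
        rw [h5]
        rw [h6, add_smul, one_smul] at hqj
        exact eq_neg_of_add_eq_zero_left hqj
      rw [h3, h4] at h1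
      have h5 : ∑ e ∈ range L, ((k * r j e : ℤ) - b e) • δ (1 + e) - δ (L + 2 + j) = 0 := by
        rw [← h1]
        abel
      exact (sub_eq_zero.1 h5).symm
    · intro j' _ hne
      simp [hne]
    · intro h2
      exact absurd (Finset.mem_range.2 hj) h2
    · intro i hi
      have hi' := Finset.mem_range.1 hi
      have h2 : ¬ (i = L + 1 + j) := by omega
      simp [h2]
  have hqδ2 : ∀ j ≤ J, q • δ (L + 1 + j) = 0 := by
    intro j
    induction j with
    | zero => intro _; exact hqδ _ (by omega)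
    | succ j ih =>
      intro hj
      have h1 := hstep2 j (by omega) (ih (by omega))
      rw [show L + 1 + (j + 1) = L + 2 + j by omega, h1, Finset.smul_sum]
      refine Finset.sum_eq_zero fun e he => ?_
      have he' := Finset.mem_range.1 he
      rw [smul_comm, hqδ (1 + e) (by omega), smul_zero]
  have h1 : ∀ j ∈ range J, (c j : ℤ) • (π (L + 2 + j) - π 0) =
      ∑ e ∈ range L, ((c j : ℤ) * ((k * r j e : ℤ) - b e)) • δ (1 + e) := by
    intro j hj
    have hj' := Finset.mem_range.1 hj
    rw [← hδ, hstep2 j hj' (hqδ2 j (by omega)), Finset.smul_sum]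
    refine Finset.sum_congr rfl fun e _ => ?_
    rw [mul_smul]
  rw [Finset.sum_congr rfl h1, Finset.sum_comm]
  refine Finset.sum_eq_zero fun e he => ?_
  rw [← Finset.sum_smul]
  have h2 : ∑ j ∈ range J, (c j : ℤ) * ((k * r j e : ℤ) - b e) = 0 := by
    have h3 := hc2 e (Finset.mem_range.1 he)
    have h4 : ∑ j ∈ range J, (c j : ℤ) * ((k * r j e : ℤ) - b e) =
        k * ((∑ j ∈ range J, c j * r j e : ℕ) : ℤ) - ((∑ j ∈ range J, c j : ℕ) : ℤ) * b e := by
      push_cast
      rw [Finset.mul_sum, Finset.sum_mul, ← Finset.sum_sub_distrib]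
      refine Finset.sum_congr rfl fun j _ => ?_
      ring
    rw [h4, h3, hc1]
    ring
  rw [h2, zero_smul]

/-- A solution yields an integral script. -/
theorem script_of_sol (hq : R * k * k + k < q) (hr : ∀ j e, r j e ≤ R) (hb : ∀ e, b e ≤ R)
    (hk : 1 ≤ k) (c : ℕ → ℕ) (hc1 : ∑ j ∈ range J, c j = k)
    (hc2 : ∀ e < L, ∑ j ∈ range J, c j * r j e = b e) :
    (∑ j ∈ range J, (c j : ℤ) • ((Pi.single (L + 2 + j) 1 : ℕ → ℤ) - Pi.single 0 1)) ∈
      Prin (arcs L J q k r b) (L + 1 + J) := by
  have hrel : ∀ u < L + 1 + J, ((arcs L J q k r b).map (fun a => if a.1 = u then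
      QuotientAddGroup.mk' (Prin (arcs L J q k r b) (L + 1 + J)) (Pi.single u 1) -
        QuotientAddGroup.mk' (Prin (arcs L J q k r b) (L + 1 + J)) (Pi.single a.2 1)
      else 0)).sum = 0 := by
    intro u hu
    have h1 : QuotientAddGroup.mk' (Prin (arcs L J q k r b) (L + 1 + J))
        (((arcs L J q k r b).map (fun a => if a.1 = u then
        (Pi.single u 1 - Pi.single a.2 1 : ℕ → ℤ) else 0)).sum) = 0 := by
      rw [QuotientAddGroup.mk'_apply, QuotientAddGroup.eq_zero_iff]
      refine ⟨Pi.single u 1, ?_, fun v _ => lap_single _ u v⟩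
      rw [Pi.single_apply, if_neg (by omega)]
    rw [map_list_sum, List.map_map] at h1
    refine Eq.trans ?_ h1
    congr 1
    refine List.map_congr_left fun a _ => ?_
    simp only [Function.comp_apply]
    split_ifs
    · rw [map_sub]
    · rw [map_zero]
  have h := group_part hq hr hb hk
    (fun v => QuotientAddGroup.mk' (Prin (arcs L J q k r b) (L + 1 + J)) (Pi.single v 1))
    hrel c hc1 hc2
  rw [← QuotientAddGroup.eq_zero_iff, ← QuotientAddGroup.mk'_apply, map_sum]
  refine Eq.trans ?_ h
  refine Finset.sum_congr rfl fun j _ => ?_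
  rw [map_zsmul, map_sub]

/-- A solution yields a bad script. -/
theorem bad_of_sol (hq : R * k * k + k < q) (hr : ∀ j e, r j e ≤ R) (hb : ∀ e, b e ≤ R)
    (hk : 1 ≤ k) {K : ℕ} (hK : k * ((arcs L J q k r b).length + 1) ^ (L + 1 + J) ≤ K)
    (h : Sol L J k r b) :
    Bad (L + 1 + J + 1) (arcs L J q k r b) (L + 1 + J) K (c0 k) := by
  obtain ⟨c, hc1, hc2⟩ := h
  have hsf : SkipFree (L + 1 + J) (arcs L J q k r b) := skipFree_arcs (by omega)
  obtain ⟨g0, hg0, hg0L⟩ := script_of_sol hq hr hb hk c hc1 hc2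
  set E := arcs L J q k r b with hE
  -- the vector of chosen chips
  obtain ⟨d, hd⟩ : ∃ d : ℕ → ℤ, ∀ v, d v = ∑ j ∈ range J, if v = L + 2 + j then (c j : ℤ) else 0 :=
    ⟨_, fun _ => rfl⟩
  have hd0 : ∀ v, 0 ≤ d v := by
    intro v
    rw [hd]
    refine Finset.sum_nonneg fun j _ => ?_
    split_ifs <;> positivity
  have hval : ∀ v < L + 1 + J + 1, lap E (fun u => - g0 u) v = c0 k v - d v := by
    intro v hv
    rw [lap_neg, hg0L v hv]
    rw [Finset.sum_apply]
    have h1 : ∀ j ∈ range J, ((c j : ℤ) • ((Pi.single (L + 2 + j) 1 : ℕ → ℤ) - Pi.single 0 1) :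
        ℕ → ℤ) v =
        (if v = L + 2 + j then (c j : ℤ) else 0) - (if v = 0 then 1 else 0) * (c j : ℤ) := by
      intro j _
      simp only [Pi.smul_apply, Pi.sub_apply, Pi.single_apply, smul_eq_mul]
      split_ifs <;> ring
    rw [Finset.sum_congr rfl h1, Finset.sum_sub_distrib, ← Finset.mul_sum]
    have h2 : ∑ j ∈ range J, (c j : ℤ) = k := by exact_mod_cast hc1
    rw [h2, hd]
    unfold c0
    split_ifs <;> ring
  have hdsum : ∑ v ∈ range (L + 1 + J + 1), d v ≤ k := by
    simp only [hd]
    rw [Finset.sum_comm]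
    have h1 : ∀ j ∈ range J, ∑ v ∈ range (L + 1 + J + 1), (if v = L + 2 + j then (c j : ℤ) else 0) =
        c j := by
      intro j hj
      have hj' := Finset.mem_range.1 hj
      rw [Finset.sum_ite_eq', if_pos (Finset.mem_range.2 (by omega))]
    rw [Finset.sum_congr rfl h1]
    exact le_of_eq (by exact_mod_cast hc1)
  have hbd := hsf.bound (fun u => - g0 u) d k (by simp [hg0]) hd0 hdsum (by
    intro v hv1 hv2
    rw [hval v hv2]
    unfold c0
    rw [if_neg (by omega)]
    ring)
  have hcong : ∀ v, lap E (fun u => (((- g0 u).toNat : ℕ) : ℤ)) v = lap E (fun u => - g0 u) v := by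
    intro v
    refine lap_congr E ?_ v
    intro a ha
    have := (hbd a.1 (hsf.wf a ha).1).1
    omega
  refine ⟨fun v => (- g0 v).toNat, by simp [hg0], ?_, ?_, ?_⟩
  · by_contra hcon
    push Not at hcon
    -- all values vanish, so the Laplacian vanishes at `0`
    have h1 : ∀ v < L + 1 + J + 1, - g0 v = 0 := by
      intro v hv
      have h2 := hcon v hv
      have h3 := (hbd v hv).1
      omega
    have h2 := hval 0 (by omega)
    have h3 : lap E (fun u => - g0 u) 0 = 0 := by
      rw [← lap_zero E 0]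
      exact lap_congr E (fun a ha => h1 a.1 (hsf.wf a ha).1) 0
    rw [h3] at h2
    have h4 : d 0 = 0 := by
      rw [hd]
      refine Finset.sum_eq_zero fun j _ => ?_
      rw [if_neg (by omega)]
    rw [h4] at h2
    unfold c0 at h2
    simp at h2
    omega
  · intro v hv
    have h1 := (hbd v hv).1
    have h2 := (hbd v hv).2
    have h3 : ((k * (E.length + 1) ^ (L + 1 + J) : ℕ) : ℤ) ≤ K := by
      exact_mod_cast hK
    push_cast at h3
    have h4 : (- g0 v) ≤ K := h2.trans h3
    change (- g0 v).toNat ≤ K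
    omega
  · intro v hv
    rw [hcong v, hval v hv]
    have := hd0 v
    linarith

end

end Pool.Agent.H577R2
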