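import Pool.Agent.H577R2.FromSat

/-!
# The reduction and its polynomial-time computability
-/

namespace Pool.Agent.NPC.H577R2

open Finset Pool.Agent.H577R2

section Gen

variable {α β : Type} [TEnc α] [TEnc β]

theorem poly_intSub {m n : α → ℕ} (hm : Poly m) (hn : Poly n) :
    Poly (fun a => ((m a : ℤ) - (n a : ℤ))) := by
  refine Poly.of_toT ((Poly.toT' (Poly.pair (Poly.decide_lt hm hn)
    (Poly.add (Poly.sub hm hn) (Poly.sub hn hm)))).congr fun a => ?_)
  change toT (decide (m a < n a), (m a - n a + (n a - m a))) =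
    toT (decide ((m a : ℤ) - (n a : ℤ) < 0), ((m a : ℤ) - (n a : ℤ)).natAbs)
  congr 2
  · rw [decide_eq_decide]
    omega
  · omega

theorem poly_replicate {n : α → ℕ} {b : α → β} (hn : UPoly n) (hb : Poly b) :
    Poly (fun a => List.replicate (n a) (b a)) :=
  (Poly.map (F := fun a _ => b a) hn (hb.comp (Poly.fst Poly.id))).congr fun a => by
    rw [List.map_replicate]

theorem poly_two_pow {n : α → ℕ} (hn : UPoly n) : Poly (fun a => 2 ^ (n a)) :=
  (Poly.valBits (Poly.append (poly_replicate hn (Poly.const false)) (Poly.const [true]))).congr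
    fun a => by rw [valB_replicate_false]; simp

theorem poly_range {n : α → ℕ} (hn : UPoly n) : Poly (fun a => List.range (n a)) := hn.range

theorem poly_outdeg {E : α → List (ℕ × ℕ)} {v : α → ℕ} (hE : Poly E) (hv : Poly v) :
    Poly (fun a => outdeg (E a) (v a)) := by
  unfold outdeg
  exact Poly.length (Poly.filter (p := fun a (x : ℕ × ℕ) => decide (x.1 = v a)) hE
    (Poly.decide_eq (Poly.fst (Poly.snd Poly.id)) (hv.comp (Poly.fst Poly.id))))

theorem poly_indeg {E : α → List (ℕ × ℕ)} {v : α → ℕ} (hE : Poly E) (hv : Poly v) :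
    Poly (fun a => indeg (E a) (v a)) := by
  unfold indeg
  exact Poly.length (Poly.filter (p := fun a (x : ℕ × ℕ) => decide (x.2 = v a)) hE
    (Poly.decide_eq (Poly.snd (Poly.snd Poly.id)) (hv.comp (Poly.fst Poly.id))))

theorem poly_subd {n : α → ℕ} {E : α → List (ℕ × ℕ)} (hn : Poly n) (hE : Poly E) :
    Poly (fun a => subd (n a) (E a)) := by
  unfold subd
  have h1 : Poly (fun p : α × ℕ => (E p.1).getD p.2 (0, 0)) :=
    Poly.getD (d := fun _ => (0, 0)) (hE.comp (Poly.fst Poly.id)) (Poly.snd Poly.id)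
      (Poly.const (0, 0))
  have h2 : Poly (fun p : α × ℕ => n p.1 + p.2) :=
    Poly.add (hn.comp (Poly.fst Poly.id)) (Poly.snd Poly.id)
  exact Poly.flatMap (F := fun a i => [(((E a).getD i (0, 0)).1, n a + i),
    (n a + i, ((E a).getD i (0, 0)).2)]) (poly_range (UPoly.length hE))
    (Poly.cons (Poly.pair (Poly.fst h1) h2) (Poly.cons (Poly.pair h2 (Poly.snd h1))
      (Poly.const [])))

end Gen

/-- The order of the cyclic factors. -/
def qS (φ : CNF3) : ℕ := 5 * nv φ * nv φ + nv φ + 1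

/-- The arcs of the multigraph. -/
def ES (φ : CNF3) : List (ℕ × ℕ) :=
  arcs (nv φ + φ.length) (2 * nv φ) (qS φ) (nv φ) (rS φ) (bS φ)

/-- The number of its vertices, minus one. -/
def NS (φ : CNF3) : ℕ := nv φ + φ.length + 1 + 2 * nv φ

/-- The number of firings. -/
def KS (φ : CNF3) : ℕ := 2 ^ ((ES φ).length * NS φ + nv φ)

/-- The arcs of the simple digraph. -/
def ES' (φ : CNF3) : List (ℕ × ℕ) := subd (NS φ + 1) (ES φ)

/-- The target distribution. -/
def yS (φ : CNF3) (v : ℕ) : ℤ :=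
  ((outdeg (ES' φ) v : ℕ) : ℤ) - ((1 + (if v = 0 then nv φ else 0) : ℕ) : ℤ)

/-- The initial distribution. -/
def xS (φ : CNF3) (v : ℕ) : ℤ :=
  ((outdeg (ES' φ) v + KS φ * outdeg (ES' φ) v : ℕ) : ℤ) -
    ((1 + (if v = 0 then nv φ else 0) + KS φ * indeg (ES' φ) v : ℕ) : ℤ)

/-- The instance. -/
def inst (φ : CNF3) : List (ℕ × ℕ) × List ℤ × List ℤ :=
  (ES' φ, (List.range (NS φ + 1 + (ES φ).length)).map (xS φ),
    (List.range (NS φ + 1 + (ES φ).length)).map (yS φ))

theorem upoly_nv : UPoly nv :=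
  UPoly.add (UPoly.mul (UPoly.const 5) (UPoly.length (Poly.id (α := CNF3)))) (UPoly.const 1)

theorem upoly_qS : UPoly qS :=
  UPoly.add (UPoly.add (UPoly.mul (UPoly.mul (UPoly.const 5) upoly_nv) upoly_nv) upoly_nv)
    (UPoly.const 1)

theorem poly_cl : Poly (fun p : CNF3 × ℕ => cl p.1 p.2) :=
  Poly.getD (d := fun _ => ((true, 0), (true, 0), (true, 0))) (Poly.fst Poly.id)
    (Poly.snd Poly.id) (Poly.const _)

theorem poly_lit {α : Type} [TEnc α] {l : α → Lit ℕ} (hl : Poly l) : Poly (fun a => lit (l a)) :=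
  Poly.add (Poly.mul (Poly.const 2) (Poly.snd hl)) (Poly.cond (Poly.fst hl) (Poly.const 1)
    (Poly.const 0))

theorem poly_rS : Poly (fun p : CNF3 × ℕ × ℕ => rS p.1 p.2.1 p.2.2) := by
  unfold rS
  have hφ : Poly (fun p : CNF3 × ℕ × ℕ => p.1) := Poly.fst Poly.id
  have hj : Poly (fun p : CNF3 × ℕ × ℕ => p.2.1) := Poly.fst (Poly.snd Poly.id)
  have he : Poly (fun p : CNF3 × ℕ × ℕ => p.2.2) := Poly.snd (Poly.snd Poly.id)
  have hn : Poly (fun p : CNF3 × ℕ × ℕ => nv p.1) := upoly_nv.toPoly.comp hφ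
  have hen : Poly (fun p : CNF3 × ℕ × ℕ => p.2.2 - nv p.1) := Poly.sub he hn
  have hc : Poly (fun p : CNF3 × ℕ × ℕ => cl p.1 (p.2.2 - nv p.1)) :=
    poly_cl.comp (Poly.pair hφ hen)
  have hlen : Poly (fun p : CNF3 × ℕ × ℕ => p.1.length) := Poly.length hφ
  have hbase : Poly (fun p : CNF3 × ℕ × ℕ => 3 * p.1.length + 2 * (p.2.2 - nv p.1)) :=
    Poly.add (Poly.mul (Poly.const 3) hlen) (Poly.mul (Poly.const 2) hen)
  have h01 : ∀ f : CNF3 × ℕ × ℕ → ℕ, Poly f →
      Poly (fun p : CNF3 × ℕ × ℕ => if p.2.1 = f p then 1 else 0) := fun f hf =>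
    Poly.ite (Poly.decide_eq hj hf) (Poly.const 1) (Poly.const 0)
  refine Poly.ite (Poly.decide_lt he hn) (Poly.ite (Poly.decide_eq he (Poly.div hj
    (Poly.const 2))) (Poly.const 1) (Poly.const 0)) ?_
  refine Poly.add (h01 _ (poly_lit (Poly.fst hc))) (Poly.add
    (h01 _ (poly_lit (Poly.fst (Poly.snd hc)))) (Poly.add
    (h01 _ (poly_lit (Poly.snd (Poly.snd hc)))) (Poly.add (h01 _ ?_) (h01 _ ?_))))
  · exact Poly.add (Poly.mul (Poly.const 2) hbase) (Poly.const 1)
  · exact Poly.add (Poly.mul (Poly.const 2) (Poly.add hbase (Poly.const 1))) (Poly.const 1)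

theorem poly_bS : Poly (fun p : CNF3 × ℕ => bS p.1 p.2) :=
  Poly.ite (Poly.decide_lt (Poly.snd Poly.id) (upoly_nv.toPoly.comp (Poly.fst Poly.id)))
    (Poly.const 1) (Poly.const 3)

/-- The arcs from `p_j` for the coordinate `e`. -/
def inner (φ : CNF3) (j e : ℕ) : List (ℕ × ℕ) :=
  List.replicate (bS φ e + qS φ - nv φ * rS φ j e) (nv φ + φ.length + 1 + j, 1 + e) ++
    List.replicate (nv φ * rS φ j e + qS φ - bS φ e) (nv φ + φ.length + 1 + j, 0)

/-- The arcs from `p_j`. -/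
def outer (φ : CNF3) (j : ℕ) : List (ℕ × ℕ) :=
  (nv φ + φ.length + 1 + j, nv φ + φ.length + 2 + j) ::
    ((List.range (nv φ + φ.length)).flatMap (fun e => inner φ j e) ++
      List.replicate (qS φ - 1) (nv φ + φ.length + 1 + j, 0))

theorem upoly_len0 : UPoly (fun φ : CNF3 => φ.length) := UPoly.length Poly.id

theorem upoly_L : UPoly (fun φ : CNF3 => nv φ + φ.length) := UPoly.add upoly_nv upoly_len0

theorem poly_p : Poly (fun p : CNF3 × ℕ => nv p.1 + p.1.length + 1 + p.2) :=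
  Poly.add (Poly.add (upoly_L.comp (Poly.fst Poly.id)).toPoly (Poly.const 1)) (Poly.snd Poly.id)

theorem poly_inner : Poly (fun p : (CNF3 × ℕ) × ℕ => inner p.1.1 p.1.2 p.2) := by
  have hφ3 : Poly (fun p : (CNF3 × ℕ) × ℕ => p.1.1) := Poly.fst (Poly.fst Poly.id)
  have hj3 : Poly (fun p : (CNF3 × ℕ) × ℕ => p.1.2) := Poly.snd (Poly.fst Poly.id)
  have he3 : Poly (fun p : (CNF3 × ℕ) × ℕ => p.2) := Poly.snd Poly.id
  have hr3 : Poly (fun p : (CNF3 × ℕ) × ℕ => rS p.1.1 p.1.2 p.2) :=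
    poly_rS.comp (Poly.pair hφ3 (Poly.pair hj3 he3))
  have hb3 : Poly (fun p : (CNF3 × ℕ) × ℕ => bS p.1.1 p.2) :=
    poly_bS.comp (Poly.pair hφ3 he3)
  have hn3 : UPoly (fun p : (CNF3 × ℕ) × ℕ => nv p.1.1) := upoly_nv.comp hφ3
  have hq3 : UPoly (fun p : (CNF3 × ℕ) × ℕ => qS p.1.1) := upoly_qS.comp hφ3
  have hp3 : Poly (fun p : (CNF3 × ℕ) × ℕ => nv p.1.1 + p.1.1.length + 1 + p.1.2) :=
    poly_p.comp (Poly.fst Poly.id)
  have h1 : UPoly (fun p : (CNF3 × ℕ) × ℕ => bS p.1.1 p.2 + qS p.1.1 -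
      nv p.1.1 * rS p.1.1 p.1.2 p.2) :=
    UPoly.of_le (n := fun p : (CNF3 × ℕ) × ℕ => 5 + qS p.1.1)
      (Poly.sub (Poly.add hb3 hq3.toPoly) (Poly.mul hn3.toPoly hr3))
      (UPoly.add (UPoly.const 5) hq3) fun p => by
        have := bS_le p.1.1 p.2
        omega
  have h2 : UPoly (fun p : (CNF3 × ℕ) × ℕ => nv p.1.1 * rS p.1.1 p.1.2 p.2 + qS p.1.1 -
      bS p.1.1 p.2) :=
    UPoly.of_le (n := fun p : (CNF3 × ℕ) × ℕ => nv p.1.1 * 5 + qS p.1.1)
      (Poly.sub (Poly.add (Poly.mul hn3.toPoly hr3) hq3.toPoly) hb3)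
      (UPoly.add (UPoly.mul hn3 (UPoly.const 5)) hq3) fun p => by
        have := Nat.mul_le_mul_left (nv p.1.1) (rS_le p.1.1 p.1.2 p.2)
        omega
  have h3 : Poly (fun p : (CNF3 × ℕ) × ℕ => (nv p.1.1 + p.1.1.length + 1 + p.1.2, 1 + p.2)) :=
    Poly.pair hp3 (Poly.add (Poly.const 1) he3)
  have h4 : Poly (fun p : (CNF3 × ℕ) × ℕ => (nv p.1.1 + p.1.1.length + 1 + p.1.2, 0)) :=
    Poly.pair hp3 (Poly.const 0)
  have h5 := poly_replicate h1 h3
  have h6 := poly_replicate h2 h4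
  exact (Poly.append h5 h6).congr fun p => rfl

theorem poly_outer : Poly (fun p : CNF3 × ℕ => outer p.1 p.2) := by
  have hL' : UPoly (fun p : CNF3 × ℕ => nv p.1 + p.1.length) := upoly_L.comp (Poly.fst Poly.id)
  have h1 : Poly (fun p : CNF3 × ℕ => (List.range (nv p.1 + p.1.length)).flatMap
      (fun e => inner p.1 p.2 e)) :=
    Poly.flatMap (F := fun (p : CNF3 × ℕ) e => inner p.1 p.2 e) (poly_range hL') poly_inner
  have h2 : UPoly (fun p : CNF3 × ℕ => qS p.1 - 1) :=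
    UPoly.of_le (n := fun p : CNF3 × ℕ => qS p.1)
      (Poly.sub (upoly_qS.comp (Poly.fst Poly.id)).toPoly (Poly.const 1))
      (upoly_qS.comp (Poly.fst Poly.id)) (fun p => Nat.sub_le _ _)
  exact Poly.cons (Poly.pair poly_p (Poly.add (Poly.add hL'.toPoly (Poly.const 2))
    (Poly.snd Poly.id))) (Poly.append h1 (poly_replicate h2 (Poly.pair poly_p (Poly.const 0))))

theorem ES_eq (φ : CNF3) : ES φ =
    (List.range (nv φ + φ.length + 1)).flatMap (fun i => List.replicate (qS φ) (i, i + 1)) ++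
      (List.range (2 * nv φ)).flatMap (fun j => outer φ j) := rfl

theorem poly_ES : Poly ES := by
  have h1 : Poly (fun φ : CNF3 => (List.range (nv φ + φ.length + 1)).flatMap
      (fun i => List.replicate (qS φ) (i, i + 1))) :=
    Poly.flatMap (F := fun φ i => List.replicate (qS φ) (i, i + 1))
      (poly_range (UPoly.add upoly_L (UPoly.const 1)))
      (poly_replicate (upoly_qS.comp (Poly.fst Poly.id))
        (Poly.pair (Poly.snd Poly.id) (Poly.add (Poly.snd Poly.id) (Poly.const 1))))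
  have h2 : Poly (fun φ : CNF3 => (List.range (2 * nv φ)).flatMap (fun j => outer φ j)) :=
    Poly.flatMap (F := fun φ j => outer φ j)
      (poly_range (UPoly.mul (UPoly.const 2) upoly_nv)) poly_outer
  exact (Poly.append h1 h2).congr fun φ => (ES_eq φ).symm

theorem upoly_NS : UPoly NS :=
  UPoly.add (UPoly.add (UPoly.add upoly_nv (UPoly.length Poly.id)) (UPoly.const 1))
    (UPoly.mul (UPoly.const 2) upoly_nv)

theorem upoly_len : UPoly (fun φ => (ES φ).length) := UPoly.length poly_ES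

theorem poly_KS : Poly KS :=
  poly_two_pow (UPoly.add (UPoly.mul upoly_len upoly_NS) upoly_nv)

theorem poly_ES' : Poly ES' := poly_subd (Poly.add upoly_NS.toPoly (Poly.const 1)) poly_ES

theorem poly_yS : Poly (fun p : CNF3 × ℕ => yS p.1 p.2) := by
  have hφ : Poly (fun p : CNF3 × ℕ => p.1) := Poly.fst Poly.id
  have hv : Poly (fun p : CNF3 × ℕ => p.2) := Poly.snd Poly.id
  refine poly_intSub (poly_outdeg (poly_ES'.comp hφ) hv) (Poly.add (Poly.const 1)
    (Poly.ite (Poly.decide_eq hv (Poly.const 0)) (upoly_nv.toPoly.comp hφ) (Poly.const 0)))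

theorem poly_xS : Poly (fun p : CNF3 × ℕ => xS p.1 p.2) := by
  have hφ : Poly (fun p : CNF3 × ℕ => p.1) := Poly.fst Poly.id
  have hv : Poly (fun p : CNF3 × ℕ => p.2) := Poly.snd Poly.id
  have ho := poly_outdeg (poly_ES'.comp hφ) hv
  have hi := poly_indeg (poly_ES'.comp hφ) hv
  have hK : Poly (fun p : CNF3 × ℕ => KS p.1) := poly_KS.comp hφ
  exact poly_intSub (Poly.add ho (Poly.mul hK ho)) (Poly.add (Poly.add (Poly.const 1)
    (Poly.ite (Poly.decide_eq hv (Poly.const 0)) (upoly_nv.toPoly.comp hφ) (Poly.const 0)))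
    (Poly.mul hK hi))

theorem poly_inst : Poly inst := by
  have hr : Poly (fun φ => List.range (NS φ + 1 + (ES φ).length)) :=
    poly_range (UPoly.add (UPoly.add upoly_NS (UPoly.const 1)) upoly_len)
  exact Poly.pair poly_ES' (Poly.pair (Poly.map (F := fun φ v => xS φ v) hr poly_xS)
    (Poly.map (F := fun φ v => yS φ v) hr poly_yS))

end Pool.Agent.NPC.H577R2
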